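import Mathlib

/-!
# QTX-Comb3: the weights

PROOF. Let `q = card K`, `t` the factor `2` or `1`, `S = ∑_{i ∈ K} σ i ≤ q`. If `t = 2` then `J` is nonempty, so `card J ≥ 4` (even, not `2`) and `J ⊆ K`, so `q ≥ 4`, and `q = 4` implies `K = J`.
`q = 1`: `t = 1`; `K = {k}`: `k ∈ L`: `S ≤ 1/2`; `k ∉ L`: `S ≤ 1 - κ`.
`q = 2`: `t = 1`, factor `1/2`; `K = {k, l}`: both in `L`: `S ≤ 3/2`: `3/4`; otherwise `S ≤ 2 - κ`: `1 - κ/2`.
`q = 3`: `t = 1`, factor `1/4`: `≤ 3/4`.
`q = 4`: factor `1/8`; `t = 1`: `≤ 1/2`; `t = 2`: `K = J`: if `K ⊆ L` then some `σ k ≤ 1/2`, `S ≤ 7/2`: `7/8`; otherwise some `k ∈ K` is not in `L`, `S ≤ 4 - κ`: `1 - κ/4`.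
`q ≥ 5`: `≤ 2^(1-q) · 2 · q ≤ 5/8`. (As `0 ≤ κ ≤ 1`, `7/8 ≤ 1 - κ/8`.) Compare `QTW/Comb.lean`.
-/

set_option autoImplicit false

namespace Pool.Agent.QTW

open Finset

private theorem comb3_pow (q : ℕ) (hq : 5 ≤ q) : (2 : ℝ)⁻¹ ^ (q - 1) * (2 * q) ≤ 5 / 8 := by
  induction q, hq using Nat.le_induction with
  | base => norm_num
  | succ q hq ih =>
    have e1 : q + 1 - 1 = (q - 1) + 1 := by omega
    have hq' : (5 : ℝ) ≤ q := by exact_mod_cast hq
    have h0 : 0 < (2 : ℝ)⁻¹ ^ (q - 1) := by positivity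
    rw [e1, pow_succ]
    push_cast
    nlinarith

private theorem comb3_sum {I : Type} [DecidableEq I] (K : Finset I) (σ : I → ℝ)
    (hσ : ∀ i, σ i ≤ 1) {k : I} (hk : k ∈ K) : ∑ i ∈ K, σ i ≤ σ k + (K.card - 1) := by
  rw [← add_sum_erase K σ hk]
  have h1 : ∑ i ∈ K.erase k, σ i ≤ (K.erase k).card := by
    calc ∑ i ∈ K.erase k, σ i ≤ ∑ _i ∈ K.erase k, (1 : ℝ) := sum_le_sum fun i _ => hσ i
      _ = (K.erase k).card := by rw [sum_const, nsmul_eq_mul, mul_one]
  rw [card_erase_of_mem hk, Nat.cast_sub (card_pos.2 ⟨k, hk⟩), Nat.cast_one] at h1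
  linarith

open Classical in
theorem comb3 {I : Type} [Fintype I] [DecidableEq I] (J L K : Finset I) (hJe : Even J.card)
    (hJ2 : J.card ≠ 2) (hL : L ⊆ J) (hK : K.Nonempty) (σ : I → ℝ) {κ : ℝ} (h0 : 0 ≤ κ)
    (h1 : κ ≤ 1) (hσ : ∀ i, σ i ≤ 1) (hσ' : ∀ i, i ∉ L → σ i ≤ 1 - κ)
    (k1 : ∀ k ∈ L, K = {k} → σ k ≤ 1 / 2)
    (k2 : ∀ k ∈ L, ∀ l ∈ L, k ≠ l → K = {k, l} → σ k + σ l ≤ 3 / 2)
    (k4 : K = J → K.card = 4 → K ⊆ L → ∃ k ∈ K, σ k ≤ 1 / 2) :
    (2 : ℝ)⁻¹ ^ (K.card - 1) * ((if J.Nonempty ∧ J ⊆ K then 2 else 1) * ∑ i ∈ K, σ i) ≤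
      1 - κ / 8 := by
  have hS : ∑ i ∈ K, σ i ≤ K.card := by
    calc ∑ i ∈ K, σ i ≤ ∑ _i ∈ K, (1 : ℝ) := sum_le_sum fun i _ => hσ i
      _ = K.card := by rw [sum_const, nsmul_eq_mul, mul_one]
  have hpos : 1 ≤ K.card := hK.card_pos
  have hcard : J.Nonempty ∧ J ⊆ K → 4 ≤ J.card ∧ J.card ≤ K.card := by
    rintro ⟨ha, hb⟩
    have h2 := card_le_card hb
    have h3 := ha.card_pos
    obtain ⟨m, hm⟩ := hJe
    exact ⟨by omega, h2⟩
  have hnall : K.card < 4 → ¬ (J.Nonempty ∧ J ⊆ K) := by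
    intro hlt hall
    have := hcard hall
    omega
  rcases Nat.lt_or_ge K.card 5 with hlt | hge
  · interval_cases hc : K.card
    · -- one element
      rw [if_neg (hnall (by norm_num))]
      obtain ⟨k, hk⟩ := card_eq_one.1 hc
      subst hk
      rw [sum_singleton]
      by_cases hkL : k ∈ L
      · have := k1 k hkL rfl
        norm_num
        linarith
      · have := hσ' k hkL
        norm_num
        linarith
    · -- two elements
      rw [if_neg (hnall (by norm_num))]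
      obtain ⟨k, l, hkl, hi⟩ := card_eq_two.1 hc
      subst hi
      rw [sum_pair hkl]
      have key : σ k + σ l ≤ 2 - κ / 2 := by
        by_cases hkL : k ∈ L
        · by_cases hlL : l ∈ L
          · have := k2 k hkL l hlL hkl rfl
            linarith
          · have := hσ' l hlL
            have := hσ k
            linarith
        · have := hσ' k hkL
          have := hσ l
          linarith
      norm_num
      linarith
    · -- three elements
      rw [if_neg (hnall (by norm_num))]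
      push_cast at hS
      norm_num
      linarith
    · -- four elements
      push_cast at hS
      by_cases hall : J.Nonempty ∧ J ⊆ K
      · rw [if_pos hall]
        obtain ⟨ha, hb⟩ := hcard hall
        have hKJ : K = J := (eq_of_subset_of_card_le hall.2 (by omega)).symm
        by_cases hKL : K ⊆ L
        · obtain ⟨k, hk, hk2⟩ := k4 hKJ rfl hKL
          have h5 := comb3_sum K σ hσ hk
          rw [hc] at h5
          push_cast at h5
          norm_num
          linarith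
        · obtain ⟨k, hk, hkL⟩ := not_subset.1 hKL
          have h5 := comb3_sum K σ hσ hk
          have h6 := hσ' k hkL
          rw [hc] at h5
          push_cast at h5
          norm_num
          linarith
      · rw [if_neg hall]
        norm_num
        linarith
  · have hp := comb3_pow K.card hge
    have hT : (if J.Nonempty ∧ J ⊆ K then (2 : ℝ) else 1) * ∑ i ∈ K, σ i ≤ 2 * K.card := by
      have hq : (0 : ℝ) ≤ K.card := Nat.cast_nonneg _
      split_ifs <;> linarith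
    have h8 : (2 : ℝ)⁻¹ ^ (K.card - 1) * ((if J.Nonempty ∧ J ⊆ K then (2 : ℝ) else 1) *
        ∑ i ∈ K, σ i) ≤ (2 : ℝ)⁻¹ ^ (K.card - 1) * (2 * K.card) :=
      mul_le_mul_of_nonneg_left hT (by positivity)
    linarith

end Pool.Agent.QTW
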