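import Pool.Agent.QTX.Defs
import Pool.Agent.QTW.AvN
import Pool.Agent.QTW.ESet

/-!
# QTX-NonAv3: means for the nonlinear forms

PROOF. `avn` for each `k` with `F.n k ≠ 1` (`hA.non`, `hA.cop`), minimum of the `κ`, maximum of the constants (finitely many `k`). Then `card_sg_le`: `card sg ≤ 2 card es`, and `≤ card es` if all degrees are even or some `j ∉ K` has odd degree;
so `card sg ≤ tt F K * card es`. See `QTW/NonAv.lean` for the special case: adapt it.
-/

set_option autoImplicit false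

namespace Pool.Agent.QTW

open Finset

variable {I : Type} [Fintype I] [DecidableEq I]

private theorem nav3_log {x : ℕ} (hx : 3 ≤ x) : 0 ≤ Real.log (Real.log x) := by
  refine Real.log_nonneg ?_
  have h1 : Real.exp 1 < 3 := Real.exp_one_lt_three
  have h2 : (3 : ℝ) ≤ x := by exact_mod_cast hx
  rw [Real.le_log_iff_exp_le (by linarith)]
  linarith

theorem non_av3 {F : Fam I} {c : ℤ} {P : ℕ} (hP : Bad F c P) (hA : Adm3 F) (u : I → ℤ) :
    ∃ κ C : ℝ, 0 < κ ∧ κ ≤ 1 ∧ 0 ≤ C ∧ ∀ (K : Finset I) (s : I → ℕ)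
      (k : I) (hk : k ∈ K), F.n k ≠ 1 → ∀ x : ℕ, 3 ≤ x →
      ∑ p ∈ pri x, ((sg F u P K s ⟨k, hk⟩ p).card : ℝ) / p ≤
        tt F K * (1 - κ) * Real.log (Real.log x) + C := by
  classical
  have key : ∀ k : I, ∃ κ C : ℝ, 0 < κ ∧ κ ≤ 1 ∧ 0 ≤ C ∧ ∀ x : ℕ, 3 ≤ x → F.n k ≠ 1 →
      ∑ p ∈ pri x, ((es F k p).card : ℝ) / p ≤ (1 - κ) * Real.log (Real.log x) + C := by
    intro k
    by_cases hk : F.n k = 1
    · exact ⟨1, 0, one_pos, le_rfl, le_rfl, fun x _ h => absurd hk h⟩
    · obtain ⟨h1, h2, h3⟩ := hA.non k hk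
      obtain ⟨κ, C, h4, h5, h6, h7⟩ := avn F k h3 h2 h1 fun l hl => hA.cop l k hl
      exact ⟨κ, C, h4, h5, h6, fun x hx _ => h7 x hx⟩
  choose κ C h1 h2 h3 h4 using key
  rcases isEmpty_or_nonempty I with hI | hI
  · exact ⟨1, 0, one_pos, le_rfl, le_rfl, fun K s k => (hI.false k).elim⟩
  have hne : (Finset.univ : Finset I).Nonempty := Finset.univ_nonempty
  obtain ⟨k₀⟩ := hI
  refine ⟨Finset.univ.inf' hne κ, 2 * ∑ o, C o, ?_, ?_, ?_, ?_⟩
  · rw [Finset.lt_inf'_iff]
    exact fun o _ => h1 o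
  · exact (Finset.inf'_le κ (Finset.mem_univ k₀)).trans (h2 k₀)
  · have : 0 ≤ ∑ o, C o := Finset.sum_nonneg fun o _ => h3 o
    linarith
  · intro K s k hk hk1 x hx
    set κ₀ := Finset.univ.inf' hne κ with hκ₀
    have hκo : κ₀ ≤ κ k := Finset.inf'_le κ (Finset.mem_univ k)
    have hL := nav3_log hx
    have hC : C k ≤ ∑ o, C o := Finset.single_le_sum (fun o _ => h3 o) (Finset.mem_univ k)
    have hC0 := h3 k
    have h5 := h4 k x hx hk1
    have h6 : (1 - κ k) * Real.log (Real.log x) ≤ (1 - κ₀) * Real.log (Real.log x) :=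
      mul_le_mul_of_nonneg_right (by linarith) hL
    have hpr : ∀ p ∈ pri x, p.Prime := fun p hp => (mem_pri.1 hp).2
    by_cases hall : (oddF F).Nonempty ∧ oddF F ⊆ K
    · rw [tt, if_pos hall]
      have h7 : ∑ p ∈ pri x, ((sg F u P K s ⟨k, hk⟩ p).card : ℝ) / p ≤
          2 * ∑ p ∈ pri x, ((es F k p).card : ℝ) / p := by
        rw [Finset.mul_sum]
        refine Finset.sum_le_sum fun p hp => ?_
        have h8 := (card_sg_le hP u K s ⟨k, hk⟩ (hpr p hp)).1
        have h9 : ((sg F u P K s ⟨k, hk⟩ p).card : ℝ) ≤ 2 * ((es F k p).card : ℝ) := by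
          exact_mod_cast h8
        calc ((sg F u P K s ⟨k, hk⟩ p).card : ℝ) / p ≤ 2 * ((es F k p).card : ℝ) / p :=
              div_le_div_of_nonneg_right h9 (Nat.cast_nonneg p)
          _ = _ := by ring
      linarith
    · rw [tt, if_neg hall]
      have hcase : (∀ l, Even (F.n l)) ∨ ∃ j, j ∉ K ∧ Odd (F.n j) := by
        by_cases hex : (oddF F).Nonempty
        · right
          have h7 : ¬ oddF F ⊆ K := fun h => hall ⟨hex, h⟩
          obtain ⟨j, hj, hjK⟩ := Finset.not_subset.1 h7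
          exact ⟨j, hjK, mem_oddF.1 hj⟩
        · left
          intro l
          rw [← Nat.not_odd_iff_even]
          intro hl
          exact hex ⟨l, mem_oddF.2 hl⟩
      have h7 : ∑ p ∈ pri x, ((sg F u P K s ⟨k, hk⟩ p).card : ℝ) / p ≤
          ∑ p ∈ pri x, ((es F k p).card : ℝ) / p := by
        refine Finset.sum_le_sum fun p hp => ?_
        have h8 := (card_sg_le hP u K s ⟨k, hk⟩ (hpr p hp)).2 hcase
        have h9 : ((sg F u P K s ⟨k, hk⟩ p).card : ℝ) ≤ ((es F k p).card : ℝ) := by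
          exact_mod_cast h8
        exact div_le_div_of_nonneg_right h9 (Nat.cast_nonneg p)
      linarith

end Pool.Agent.QTW
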