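import Pool.Agent.QTX.LinAv3
import Pool.Agent.QTX.NonAv3
import Pool.Agent.QTX.Comb3

/-!
# QTX-AvC: the hypothesis on averages for general families

The two sums are exchanged; the inner sums over the primes are estimated by `lin_av3` and `non_av3`, the sum of the
weights by `comb3` (with the hypothesis `N3`).
-/

set_option autoImplicit false

namespace Pool.Agent.QTW

open Finset

variable {I : Type} [Fintype I] [DecidableEq I]

theorem av_c {F : Fam I} {c : ℤ} {P : ℕ} (hP : Bad F c P) (hA : Adm3 F)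
    (he : Even (∑ i, F.n i)) (h2 : (oddF F).card ≠ 2) (u : I → ℤ) : AV F u P (N3 F u) := by
  classical
  obtain ⟨C₁, hC₁, hlin⟩ := lin_av3 hP hA u
  obtain ⟨κ, C₂, hκ, hκ1, hC₂, hnon⟩ := non_av3 hP hA u
  intro K hK
  refine ⟨κ / 8, K.card * (C₁ + C₂), by positivity, by positivity, fun s hs hN x hx => ?_⟩
  obtain ⟨t, ht⟩ : ∃ t : ℝ, t = tt F K := ⟨_, rfl⟩
  obtain ⟨σ, hσ1, hσ2, hσ3⟩ : ∃ σ : I → ℝ, (∀ k, F.n k = 1 → Sq3 F u K s k → σ k = 1) ∧
      (∀ k, F.n k = 1 → ¬ Sq3 F u K s k → σ k = 1 / 2) ∧ ∀ k, F.n k ≠ 1 → σ k = 1 - κ := by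
    refine ⟨fun k => if F.n k = 1 then (if Sq3 F u K s k then 1 else 1 / 2) else 1 - κ,
      fun k h h' => ?_, fun k h h' => ?_, fun k h => ?_⟩
    · simp only
      rw [if_pos h, if_pos h']
    · simp only
      rw [if_pos h, if_neg h']
    · simp only
      rw [if_neg h]
  have hσ : ∀ k, σ k ≤ 1 := by
    intro k
    by_cases h : F.n k = 1
    · by_cases h' : Sq3 F u K s k
      · rw [hσ1 k h h']
      · rw [hσ2 k h h']
        norm_num
    · rw [hσ3 k h]
      linarith
  have hcomb : (2 : ℝ)⁻¹ ^ (K.card - 1) * (t * ∑ i ∈ K, σ i) ≤ 1 - κ / 8 := by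
    have hJe : Even (oddF F).card := (Finset.even_sum_iff_even_card_odd F.n).mp he
    have hL : (univ.filter fun i => F.n i = 1) ⊆ oddF F := by
      intro i hi
      rw [mem_oddF, (Finset.mem_filter.mp hi).2]
      exact odd_one
    have h := comb3 (oddF F) (univ.filter fun i => F.n i = 1) K hJe h2 hL hK σ hκ.le hκ1 hσ
      (fun i hi => le_of_eq (hσ3 i fun h => hi (Finset.mem_filter.mpr ⟨mem_univ _, h⟩))) ?_ ?_ ?_
    · rw [ht]
      unfold tt
      exact h
    · intro k hk hKk
      have hk1 := (Finset.mem_filter.mp hk).2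
      by_cases hS : Sq3 F u K s k
      · exfalso
        refine hN ⟨fun l hl => ?_, Or.inl ?_, fun l hl => ?_⟩
        · rw [hKk, Finset.mem_singleton] at hl
          rw [hl]
          exact hk1
        · rw [hKk, Finset.card_singleton]
        · rw [hKk, Finset.mem_singleton] at hl
          rw [hl]
          exact hS
      · rw [hσ2 k hk1 hS]
    · intro k hk l hl hkl hKkl
      have hk1 := (Finset.mem_filter.mp hk).2
      have hl1 := (Finset.mem_filter.mp hl).2
      by_cases hSk : Sq3 F u K s k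
      · by_cases hSl : Sq3 F u K s l
        · exfalso
          refine hN ⟨fun m hm => ?_, Or.inr (Or.inl ?_), fun m hm => ?_⟩
          · rw [hKkl, Finset.mem_insert, Finset.mem_singleton] at hm
            rcases hm with hm | hm
            · rw [hm]
              exact hk1
            · rw [hm]
              exact hl1
          · rw [hKkl, Finset.card_pair hkl]
          · rw [hKkl, Finset.mem_insert, Finset.mem_singleton] at hm
            rcases hm with hm | hm
            · rw [hm]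
              exact hSk
            · rw [hm]
              exact hSl
        · rw [hσ2 l hl1 hSl]
          linarith [hσ k]
      · rw [hσ2 k hk1 hSk]
        linarith [hσ l]
    · intro hKJ hK4 hKL
      by_contra hcon
      push Not at hcon
      refine hN ⟨fun m hm => (Finset.mem_filter.mp (hKL hm)).2, Or.inr (Or.inr ⟨hKJ, hK4⟩),
        fun m hm => ?_⟩
      by_contra hS
      have h3 := hcon m hm
      rw [hσ2 m (Finset.mem_filter.mp (hKL hm)).2 hS] at h3
      exact lt_irrefl _ h3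
  obtain ⟨L, hL⟩ : ∃ L, L = Real.log (Real.log x) := ⟨_, rfl⟩
  obtain ⟨M, hM⟩ : ∃ M, M = 1 + Real.log (Real.log ((∏ j, s j : ℕ) + 3)) := ⟨_, rfl⟩
  have hlog3 : ∀ y : ℝ, 3 ≤ y → 0 ≤ Real.log (Real.log y) := by
    intro y hy
    apply Real.log_nonneg
    rw [Real.le_log_iff_exp_le (by linarith)]
    have := Real.exp_one_lt_d9
    linarith
  have hL0 : 0 ≤ L := by
    rw [hL]
    exact hlog3 _ (by exact_mod_cast hx)
  have hM1 : 1 ≤ M := by
    rw [hM]
    have h1 : (3 : ℝ) ≤ ((∏ j, s j : ℕ) : ℝ) + 3 := by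
      have : (0 : ℝ) ≤ ((∏ j, s j : ℕ) : ℝ) := Nat.cast_nonneg _
      linarith
    have := hlog3 _ h1
    linarith
  rw [← hL, ← hM]
  have hone : ∀ k : {x // x ∈ K}, ∑ p ∈ pri x, ((sg F u P K s k p).card : ℝ) / p ≤
      t * σ (k : I) * L + (C₁ + C₂) * M := by
    rintro ⟨k, hk⟩
    by_cases hk1 : F.n k = 1
    · have h := hlin K s hs k hk hk1 x hx
      have h1 : ∑ p ∈ pri x, ((sg F u P K s ⟨k, hk⟩ p).card : ℝ) / p ≤
          t * σ k * L + C₁ * M := by
        rw [hL, hM, ht]
        by_cases hq : Sq3 F u K s k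
        · rw [if_pos hq] at h
          rw [hσ1 k hk1 hq]
          exact h
        · rw [if_neg hq] at h
          rw [hσ2 k hk1 hq]
          exact h
      have h2 : 0 ≤ C₂ * M := mul_nonneg hC₂ (by linarith)
      show _ ≤ t * σ k * L + (C₁ + C₂) * M
      linarith
    · have h := hnon K s k hk hk1 x hx
      have h1 : ∑ p ∈ pri x, ((sg F u P K s ⟨k, hk⟩ p).card : ℝ) / p ≤
          t * (1 - κ) * L + C₂ := by
        rw [hL, ht]
        exact h
      have h2 : 0 ≤ C₁ * M := mul_nonneg hC₁ (by linarith)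
      have h3 : C₂ * 1 ≤ C₂ * M := mul_le_mul_of_nonneg_left hM1 hC₂
      show _ ≤ t * σ k * L + (C₁ + C₂) * M
      rw [hσ3 k hk1]
      linarith
  obtain ⟨w, hw⟩ : ∃ w : ℝ, w = (2 : ℝ)⁻¹ ^ (K.card - 1) := ⟨_, rfl⟩
  rw [← hw] at hcomb
  have hw0 : 0 ≤ w := by
    rw [hw]
    positivity
  have hw1 : w ≤ 1 := by
    rw [hw]
    exact pow_le_one₀ (by norm_num) (by norm_num)
  have hswap : ∑ p ∈ pri x, ∑ k : {x // x ∈ K},
      (2 : ℝ)⁻¹ ^ (K.card - 1) * ((sg F u P K s k p).card : ℝ) / p =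
      w * ∑ k : {x // x ∈ K}, ∑ p ∈ pri x, ((sg F u P K s k p).card : ℝ) / p := by
    rw [Finset.sum_comm, Finset.mul_sum, ← hw]
    refine Finset.sum_congr rfl fun k _ => ?_
    rw [Finset.mul_sum]
    refine Finset.sum_congr rfl fun p _ => ?_
    rw [mul_div_assoc]
  rw [hswap]
  have hsum : ∑ k : {x // x ∈ K}, ∑ p ∈ pri x, ((sg F u P K s k p).card : ℝ) / p ≤
      (t * ∑ i ∈ K, σ i) * L + K.card * ((C₁ + C₂) * M) := by
    refine (Finset.sum_le_sum fun k _ => hone k).trans (le_of_eq ?_)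
    rw [Finset.sum_add_distrib, Finset.sum_const, Finset.card_univ, Fintype.card_coe,
      nsmul_eq_mul, ← Finset.sum_mul, ← Finset.mul_sum, Finset.sum_coe_sort K fun i => σ i]
  have h1 := mul_le_mul_of_nonneg_left hsum hw0
  have h2 : w * ((t * ∑ i ∈ K, σ i) * L) ≤ (1 - κ / 8) * L := by
    rw [← mul_assoc]
    exact mul_le_mul_of_nonneg_right hcomb hL0
  have h3 : w * (K.card * ((C₁ + C₂) * M)) ≤ 1 * (K.card * ((C₁ + C₂) * M)) := by
    refine mul_le_mul_of_nonneg_right hw1 ?_
    have : 0 ≤ M := by linarith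
    positivity
  rw [mul_add] at h1
  rw [one_mul, ← mul_assoc (K.card : ℝ)] at h3
  linarith

end Pool.Agent.QTW
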