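import Pool.Agent.QTX.Defs4
import Pool.Agent.QTW.Rep

/-!
# QTX-Ev4: the values of the forms of the family

PROOFS.
`pval_prod`: `Polynomial.leadingCoeff_mul`, `leadingCoeff_C`, `leadingCoeff_prod`; `Polynomial.eval_mul`, `eval_C`,
`eval_prod`.
`bet_prod`: put `F = fam3 g ε`, `k` linear (`F.n k = 1`), `k ∉ A`, `∑ a ∈ A, F.n a = 2 m`.
Case `k = inl i`: `F.f k = g i` has degree one, `a = (g i).coeff 1 ≠ 0`, `b = (g i).coeff 0`, `bet F k l = hom (F.f l) (F.n l) (-b) a =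
(F.f l).map.eval (-b / a) * a ^ (F.n l)` (`hom_eval`, degree bound `hA.deg`); the product over `A` is
`a ^ (2m) ∏ ...`, `t = a ^ m`. For `l = inr _` the polynomial is `1`, value `1`.
Case `k = inr _`: `F.f k = 1`, so `coeff 0 = 1`, `coeff 1 = 0`, and
`bet F k l = hom (F.f l) (F.n l) (-1) 0 = (F.f l).coeff (F.n l) * (-1) ^ (F.n l)` (only the top term survives,
compare `bet_ne` in `QTX/ExcB.lean`); `A` contains no `inr` (`ε ≤ 1`, `k ∉ A`), so `(F.f l).coeff (F.n l)` is the leading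
coefficient of `g i`; `t = 1` (`(-1) ^ (2m) = 1`).
`hom_prod4`: `hom_eval` with `X = x.num`, `Z = x.den`, `x.num / x.den = x`, `t = x.den ^ m`.
-/

set_option autoImplicit false

namespace Pool.Agent.QTW

open Finset

theorem pval_prod {r : ℕ} (p : Fin r → Polynomial ℚ) (A : Finset (Fin r)) (c₀ : ℚ) (a : Option ℚ) :
    pval (Polynomial.C c₀ * ∏ i ∈ A, p i) a = c₀ * ∏ i ∈ A, pval (p i) a := by
  cases a with
  | none =>
    show (Polynomial.C c₀ * ∏ i ∈ A, p i).leadingCoeff = c₀ * ∏ i ∈ A, (p i).leadingCoeff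
    rw [Polynomial.leadingCoeff_mul, Polynomial.leadingCoeff_C, Polynomial.leadingCoeff_prod]
  | some a =>
    show (Polynomial.C c₀ * ∏ i ∈ A, p i).eval a = c₀ * ∏ i ∈ A, (p i).eval a
    rw [Polynomial.eval_mul, Polynomial.eval_C, Polynomial.eval_prod]

/-- the polynomial over `ℚ` attached to an index -/
noncomputable def pol4 {r : ℕ} (g : Fin r → Polynomial ℤ) {ε : ℕ} : Fin r ⊕ Fin ε → Polynomial ℚ :=
  Sum.elim (fun i => (g i).map (Int.castRingHom ℚ)) (fun _ => 1)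

private theorem pol4_map {r : ℕ} (g : Fin r → Polynomial ℤ) {ε : ℕ} (a : Fin r ⊕ Fin ε) :
    ((fam3 g ε).f a).map (Int.castRingHom ℚ) = pol4 g a := by
  rcases a with i | o
  · rfl
  · show (1 : Polynomial ℤ).map (Int.castRingHom ℚ) = 1
    exact Polynomial.map_one _

private theorem prod_sq {ι : Type} (A : Finset ι) (n : ι → ℕ) (x : ι → ℚ) (z : ℚ)
    (he : Even (∑ a ∈ A, n a)) (hz : z ≠ 0) :
    ∃ t : ℚ, t ≠ 0 ∧ ∏ a ∈ A, x a * z ^ n a = t ^ 2 * ∏ a ∈ A, x a := by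
  obtain ⟨m, hm⟩ := he
  refine ⟨z ^ m, pow_ne_zero _ hz, ?_⟩
  rw [Finset.prod_mul_distrib, Finset.prod_pow_eq_pow_sum, hm, pow_add]
  ring

theorem bet_prod {r : ℕ} {g : Fin r → Polynomial ℤ} {ε : ℕ} (hε : ε ≤ 1)
    (hA : Adm3 (fam3 g ε)) (k : Fin r ⊕ Fin ε) (hk : (fam3 g ε).n k = 1)
    (A : Finset (Fin r ⊕ Fin ε)) (hkA : k ∉ A) (he : Even (∑ a ∈ A, (fam3 g ε).n a)) :
    ∃ t : ℚ, t ≠ 0 ∧ ((∏ a ∈ A, bet (fam3 g ε) k a : ℤ) : ℚ) =
      t ^ 2 * ∏ a ∈ A, pval (pol4 g a) (pm g k) := by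
  rcases k with i | o
  · have hdeg : (g i).natDegree = 1 := hk
    have ha : (g i).coeff 1 ≠ 0 := by
      rw [← hdeg, Polynomial.coeff_natDegree, Polynomial.leadingCoeff_ne_zero]
      intro h0
      rw [h0, Polynomial.natDegree_zero] at hdeg
      omega
    have haQ : (((g i).coeff 1 : ℤ) : ℚ) ≠ 0 := Int.cast_ne_zero.2 ha
    obtain ⟨t, ht, h1⟩ := prod_sq A (fam3 g ε).n (fun a => pval (pol4 g a) (pm g (Sum.inl i)))
      (((g i).coeff 1 : ℤ) : ℚ) he haQ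
    refine ⟨t, ht, ?_⟩
    rw [← h1, Int.cast_prod]
    refine Finset.prod_congr rfl fun a _ => ?_
    have h2 := hom_eval ((fam3 g ε).f a) ((fam3 g ε).n a) (hA.deg a) (-(g i).coeff 0)
      ((g i).coeff 1) ha
    rw [pol4_map] at h2
    show ((hom ((fam3 g ε).f a) ((fam3 g ε).n a) (-(g i).coeff 0) ((g i).coeff 1) : ℤ) : ℚ) = _
    rw [h2]
    show _ = (pol4 g a).eval (-(((g i).coeff 0 : ℤ) : ℚ) / (((g i).coeff 1 : ℤ) : ℚ)) * _
    rw [Int.cast_neg]
  · obtain ⟨t, ht, h1⟩ := prod_sq A (fam3 g ε).n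
      (fun a => pval (pol4 g a) (pm g (Sum.inr o))) (-1) he (by norm_num)
    refine ⟨t, ht, ?_⟩
    rw [← h1, Int.cast_prod]
    refine Finset.prod_congr rfl fun a haA => ?_
    have h3 : bet (fam3 g ε) (Sum.inr o) a =
        ((fam3 g ε).f a).coeff ((fam3 g ε).n a) * (-1) ^ ((fam3 g ε).n a) := by
      have hc0 : ((fam3 g ε).f (Sum.inr o)).coeff 0 = 1 := by
        show (1 : Polynomial ℤ).coeff 0 = 1
        exact Polynomial.coeff_one_zero
      have hc1 : ((fam3 g ε).f (Sum.inr o)).coeff 1 = 0 := by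
        show (1 : Polynomial ℤ).coeff 1 = 0
        rw [Polynomial.coeff_one, if_neg (by norm_num)]
      rw [bet, hc0, hc1, hom, Finset.sum_eq_single ((fam3 g ε).n a)]
      · simp
      · intro i hi hin
        rw [Finset.mem_range] at hi
        rw [zero_pow (by omega), mul_zero]
      · intro h
        exact absurd (Finset.mem_range.2 (by omega)) h
    rcases a with i | o'
    · rw [h3]
      show ((((g i).coeff (g i).natDegree * (-1) ^ (g i).natDegree : ℤ)) : ℚ) =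
        ((g i).map (Int.castRingHom ℚ)).leadingCoeff * (-1) ^ (g i).natDegree
      rw [Polynomial.leadingCoeff_map_of_injective Int.cast_injective,
        Polynomial.coeff_natDegree]
      push_cast
      rfl
    · exfalso
      have : o' = o := by
        apply Fin.ext
        have h4 := o'.2
        have h5 := o.2
        omega
      rw [this] at haA
      exact hkA haA

theorem hom_prod4 {r : ℕ} {g : Fin r → Polynomial ℤ} {ε : ℕ}
    (hA : Adm3 (fam3 g ε)) (A : Finset (Fin r ⊕ Fin ε)) (he : Even (∑ a ∈ A, (fam3 g ε).n a))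
    (x : ℚ) :
    ∃ t : ℚ, t ≠ 0 ∧
      ((∏ a ∈ A, hom ((fam3 g ε).f a) ((fam3 g ε).n a) x.num (x.den : ℤ) : ℤ) : ℚ) =
      t ^ 2 * ∏ a ∈ A, (pol4 g a).eval x := by
  have hd : ((x.den : ℤ)) ≠ 0 := Int.natCast_ne_zero.2 x.den_ne_zero
  have hdQ : (((x.den : ℤ)) : ℚ) ≠ 0 := Int.cast_ne_zero.2 hd
  obtain ⟨t, ht, h1⟩ := prod_sq A (fam3 g ε).n (fun a => (pol4 g a).eval x)
    (((x.den : ℤ)) : ℚ) he hdQ
  refine ⟨t, ht, ?_⟩
  rw [← h1, Int.cast_prod]
  refine Finset.prod_congr rfl fun a _ => ?_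
  rw [hom_eval ((fam3 g ε).f a) ((fam3 g ε).n a) (hA.deg a) x.num (x.den : ℤ) hd, pol4_map]
  have hx : ((x.num : ℤ) : ℚ) / (((x.den : ℤ)) : ℚ) = x := by
    rw [Int.cast_natCast]
    exact Rat.num_div_den x
  rw [hx]

end Pool.Agent.QTW
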