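import Pool.Agent.QTX.Div4
import Pool.Agent.QTX.Ev4

/-!
# QTX-Cur4: exceptional points give rational points of finitely many curves `y² = h(x)`, `deg h ≥ 5`

Notation: `ε = f.natDegree % 2`, `F = fam3 g ε`, `N = f.natDegree + ε ≥ 8` even, the sum of all `F.n i`.

STEP 1 (`cur_a`, combinatorics, as in `exc_a`): let `K' ≠ ∅` be a set of indices with `F.n k = 1`, and `card ≤ 2`, or `card = 4` and
`K' = oddF F`. There is `A` disjoint from `K'` with `∑ a ∈ A, F.n a` even and `≥ 6`. Copy the combinatorial part of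
`exc_a` (`QTX/ExcA.lean`; there `hN : Num3 F` has the fields `even, two, eight, ten` used here).

STEP 2 (`cur4`): `S` = the finite set of all `C (pval G a) * G`, `G` = the product of `(g i).map` over a subset of `Fin r`, `a` = `none` or a root
`pm g (inl i)` with `(g i).natDegree = 1`, filtered by: separable and degree `≥ 5`. Let `x` be exceptional with set `K`.
`K' = univ.filter (fun k => F.n k = 1 ∧ pm g k ∈ K)`; `pm g` maps `K'` bijectively onto `K` (`fd_isW`, `fd_lin`, coprimality; `none ∈ K`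
means odd degree, `ε = 1`). If `K.card = 4`: `K' = oddF F`: an odd form `inl i` is up to a constant a normalized factor
(`fd_factor'`), it has a root in `K`, so it is linear (`fd_lin`) and in `K'`; `inr 0`: `none ∈ K`. Take `A` from STEP 1 and `G = ∏ (g i).map` over
`inl i ∈ A`. `pval G a ≠ 0` for `a ∈ K` (for `none`: leading coefficients; for `some a`: `fd_lin` and `inl i ∉ K'`). If `inr 0 ∉ A`, `G` has
degree `∑ ≥ 6`, even; if `inr 0 ∈ A` it has degree `∑ - 1 ≥ 5`, and `f` has odd degree and `none ∉ K`. So `pval G a * G.eval x` is a square for any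
`a ∈ K`; `h = C (pval G a) * G` is separable (product of pairwise coprime separable polynomials: irreducible over `ℚ`; `Irreducible.separable`,
`Polynomial.separable_prod'`; compare `exc_b` in `QTX/ExcB.lean`).
-/

set_option autoImplicit false

namespace Pool.Agent.QTW

open Finset

theorem cur_a {I : Type} [Fintype I] [DecidableEq I] {F : Fam I} (hN : Num3 F) (K : Finset I)
    (hK : K.Nonempty) (hlin : ∀ k ∈ K, F.n k = 1)
    (hcard : K.card ≤ 2 ∨ (K = oddF F ∧ K.card = 4)) :
    ∃ A : Finset I, (∀ a ∈ A, a ∉ K) ∧ Even (∑ a ∈ A, F.n a) ∧ 6 ≤ ∑ a ∈ A, F.n a := by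
  have hN8 := hN.eight
  obtain ⟨N2, hN2⟩ := hN.even
  -- sums over the complement of `K`
  have hcomp : ∑ a ∈ univ \ K, F.n a + K.card = ∑ i, F.n i := by
    have e1 : ∑ a ∈ K, F.n a = K.card := by
      rw [sum_congr rfl hlin, sum_const, smul_eq_mul, mul_one]
    rw [← e1]
    exact sum_sdiff (subset_univ K)
  obtain ⟨k, hk⟩ := hK
  have hk1 := hlin k hk
  have hpos : 0 < K.card := card_pos.mpr ⟨k, hk⟩
  rcases hcard with h2 | ⟨hJ, h4⟩
  · rcases (by omega : K.card = 1 ∨ K.card = 2) with h1 | h2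
    · -- `K = {k}`
      have hKk : K = {k} := by
        obtain ⟨k', hk'⟩ := card_eq_one.mp h1
        rw [hk', mem_singleton] at hk
        rw [hk', hk]
      have hkJ : k ∈ oddF F := mem_oddF.mpr (by rw [hk1]; exact odd_one)
      have hJe : Even (oddF F).card := by
        have := hN.even
        rw [even_sum_iff_even_card_odd] at this
        exact this
      have hJ4 : 4 ≤ (oddF F).card := by
        have h0 : 0 < (oddF F).card := card_pos.mpr ⟨k, hkJ⟩
        have hne := hN.two
        obtain ⟨m, hm⟩ := hJe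
        omega
      have hJ3 : 3 ≤ ((oddF F).erase k).card := by rw [card_erase_of_mem hkJ]; omega
      obtain ⟨b, hb, hmin⟩ := exists_min_image ((oddF F).erase k) F.n (card_pos.mp (by omega))
      have hbk : b ≠ k := ne_of_mem_erase hb
      have hbo : Odd (F.n b) := mem_oddF.mp (mem_of_mem_erase hb)
      have hsum : ∑ a ∈ (univ.erase k).erase b, F.n a + F.n b + 1 = ∑ i, F.n i := by
        have e1 := sum_erase_add (univ.erase k) F.n (a := b) (mem_erase.mpr ⟨hbk, mem_univ b⟩)
        have e2 := sum_erase_add univ F.n (a := k) (mem_univ k)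
        rw [hk1] at e2
        omega
      refine ⟨(univ.erase k).erase b, fun a ha => ?_, ?_, ?_⟩
      · rw [hKk, mem_singleton]
        exact ne_of_mem_erase (mem_of_mem_erase ha)
      · obtain ⟨r, hr⟩ := hbo
        exact ⟨N2 - r - 1, by omega⟩
      · by_cases hb1 : F.n b = 1
        · omega
        · have hb3 : 3 ≤ F.n b := by
            obtain ⟨r, hr⟩ := hbo
            omega
          have hsub : ((oddF F).erase k).erase b ⊆ (univ.erase k).erase b :=
            erase_subset_erase b (erase_subset_erase k (subset_univ _))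
          have hc : 2 ≤ (((oddF F).erase k).erase b).card := by rw [card_erase_of_mem hb]; omega
          calc 6 ≤ (((oddF F).erase k).erase b).card * 3 := by omega
            _ = ∑ _a ∈ ((oddF F).erase k).erase b, 3 := by rw [sum_const, smul_eq_mul]
            _ ≤ ∑ a ∈ ((oddF F).erase k).erase b, F.n a :=
                sum_le_sum fun a ha => hb3.trans (hmin a (mem_of_mem_erase ha))
            _ ≤ ∑ a ∈ (univ.erase k).erase b, F.n a :=
                sum_le_sum_of_subset hsub
    · exact ⟨univ \ K, fun a ha => (mem_sdiff.mp ha).2, ⟨N2 - 1, by omega⟩, by omega⟩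
  · have h10 : 10 ≤ ∑ i, F.n i :=
      hN.ten (by rw [← hJ]; exact h4) (fun j hj => hlin j (by rw [hJ]; exact hj))
    exact ⟨univ \ K, fun a ha => (mem_sdiff.mp ha).2, ⟨N2 - 2, by omega⟩, by omega⟩

theorem cur4 {f : Polynomial ℤ} {r : ℕ} {g : Fin r → Polynomial ℤ} {c : ℤ} (h : FD f g c)
    (hN : Num3 (fam3 g (f.natDegree % 2))) :
    ∃ S : Finset (Polynomial ℚ), (∀ h ∈ S, h.Separable ∧ 5 ≤ h.natDegree) ∧
      ∀ x : ℚ, Excep f x → ∃ h ∈ S, IsSquare (h.eval x) := by
  classical
  have hε : f.natDegree % 2 < 2 := Nat.mod_lt _ (by norm_num)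
  have hεo : 0 < f.natDegree % 2 → Odd f.natDegree := fun h0 => Nat.odd_iff.2 (by omega)
  have hεo' : Odd f.natDegree → 0 < f.natDegree % 2 := fun h0 => by
    have := Nat.odd_iff.1 h0
    omega
  have hg1 : ∀ i, 1 ≤ (g i).natDegree := by
    intro i
    have h1 := Polynomial.natDegree_pos_iff_degree_pos.mpr (Polynomial.degree_pos_of_irreducible (h.irr i))
    rw [Polynomial.natDegree_map_eq_of_injective Int.cast_injective] at h1
    exact h1
  have hp0 : ∀ i, (g i).map (Int.castRingHom ℚ) ≠ 0 := fun i => (h.irr i).ne_zero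
  have hpd : ∀ i, ((g i).map (Int.castRingHom ℚ)).natDegree = (g i).natDegree := fun i =>
    Polynomial.natDegree_map_eq_of_injective Int.cast_injective _
  generalize f.natDegree % 2 = ε at *
  obtain ⟨F, hF⟩ : ∃ F, F = fam3 g ε := ⟨_, rfl⟩
  rw [← hF] at hN
  have hFl : ∀ i, F.n (Sum.inl i) = (g i).natDegree := fun i => by rw [hF]; rfl
  have hFr : ∀ o, F.n (Sum.inr o) = 1 := fun o => by rw [hF]; rfl
  -- the map `pm g`
  have hpl : ∀ i, pm g (ε := ε) (Sum.inl i) =
      some (-(((g i).coeff 0 : ℤ) : ℚ) / (((g i).coeff 1 : ℤ) : ℚ)) := fun i => rfl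
  have hpr : ∀ o, pm g (ε := ε) (Sum.inr o) = none := fun o => rfl
  have hroot : ∀ i, (g i).natDegree = 1 → ((g i).map (Int.castRingHom ℚ)).eval
      (-(((g i).coeff 0 : ℤ) : ℚ) / (((g i).coeff 1 : ℤ) : ℚ)) = 0 := by
    intro i hi
    obtain ⟨h1, h2⟩ := fd_root h i hi (-(((g i).coeff 0 : ℤ) : ℚ) / (((g i).coeff 1 : ℤ) : ℚ))
    rw [h2, neg_div, neg_add_cancel, mul_zero]
  have hlinK : ∀ (K : Finset (Option ℚ)) (i : Fin r) (a : ℚ),
      ((g i).map (Int.castRingHom ℚ)).eval a = 0 → some a ∈ K →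
      F.n (Sum.inl i) = 1 ∧ pm g (ε := ε) (Sum.inl i) ∈ K := by
    intro K i a ha haK
    obtain ⟨h1, h2⟩ := fd_lin h i ha
    rw [hFl, hpl, ← h2]
    exact ⟨h1, haK⟩
  have hinj : ∀ k l : Fin r ⊕ Fin ε, F.n k = 1 → F.n l = 1 → pm g k = pm g l → k = l := by
    intro k l hk hl hkl
    rcases k with i | i
    · rcases l with j | j
      · by_contra hne
        have hij : i ≠ j := fun h0 => hne (by rw [h0])
        rw [hpl, hpl] at hkl
        have h1 := hroot i (by rw [← hFl]; exact hk)
        have h2 := hroot j (by rw [← hFl]; exact hl)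
        rw [← Option.some_inj.1 hkl] at h2
        obtain ⟨u, v, huv⟩ := h.cop i j hij
        have h5 := congrArg (Polynomial.eval
          (-(((g i).coeff 0 : ℤ) : ℚ) / (((g i).coeff 1 : ℤ) : ℚ))) huv
        rw [Polynomial.eval_add, Polynomial.eval_mul, Polynomial.eval_mul, h1, h2, mul_zero,
          mul_zero, add_zero, Polynomial.eval_one] at h5
        exact zero_ne_one h5
      · rw [hpl, hpr] at hkl
        exact absurd hkl (by simp)
    · rcases l with j | j
      · rw [hpl, hpr] at hkl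
        exact absurd hkl (by simp)
      · have h1 := i.2
        have h2 := j.2
        have h3 : i = j := Fin.ext (by omega)
        rw [h3]
  refine ⟨(((univ : Finset (Finset (Fin r))) ×ˢ (univ : Finset (Fin r ⊕ Fin ε))).image
    (fun q => Polynomial.C (pval (∏ i ∈ q.1, (g i).map (Int.castRingHom ℚ)) (pm g q.2)) *
      ∏ i ∈ q.1, (g i).map (Int.castRingHom ℚ))).filter
      (fun h => h.Separable ∧ 5 ≤ h.natDegree), fun h hh => (mem_filter.1 hh).2, ?_⟩
  rintro x ⟨K, hKne, hKW, hKcard, hKG⟩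
  obtain ⟨K', hK'⟩ : ∃ K' : Finset (Fin r ⊕ Fin ε),
      K' = univ.filter (fun k => F.n k = 1 ∧ pm g k ∈ K) := ⟨_, rfl⟩
  have hmem : ∀ k, k ∈ K' ↔ F.n k = 1 ∧ pm g k ∈ K := by
    intro k
    rw [hK', mem_filter]
    exact ⟨fun h0 => h0.2, fun h0 => ⟨mem_univ _, h0⟩⟩
  have himg : K'.image (pm g) = K := by
    ext a
    rw [mem_image]
    constructor
    · rintro ⟨k, hk, rfl⟩
      exact ((hmem k).1 hk).2
    · intro ha
      have hW := hKW a ha
      cases a with
      | none =>
        have h1 : 0 < ε := hεo' hW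
        exact ⟨Sum.inr ⟨0, h1⟩, (hmem _).2 ⟨hFr _, by rw [hpr]; exact ha⟩, hpr _⟩
      | some a =>
        obtain ⟨i, hi⟩ := (fd_isW h a).1 hW
        have h1 := hlinK K i a hi ha
        refine ⟨Sum.inl i, (hmem _).2 h1, ?_⟩
        rw [hpl, ← (fd_lin h i hi).2]
  have hcardK : K'.card = K.card := by
    rw [← himg, card_image_of_injOn]
    intro k hk l hl hkl
    exact hinj k l ((hmem k).1 hk).1 ((hmem l).1 hl).1 hkl
  have hne' : K'.Nonempty := by
    rw [← card_pos, hcardK, card_pos]
    exact hKne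
  have hcard' : K'.card ≤ 2 ∨ (K' = oddF F ∧ K'.card = 4) := by
    rcases hKcard with h1 | ⟨h1, h2, h3⟩
    · left
      rw [hcardK]
      exact h1
    · right
      refine ⟨?_, by rw [hcardK]; exact h1⟩
      ext k
      rw [mem_oddF, hmem]
      constructor
      · rintro ⟨h4, _⟩
        rw [h4]
        exact odd_one
      · intro h4
        rcases k with i | o
        · rw [hFl] at h4
          obtain ⟨q, u, hu, hq, hqu, hqd⟩ := fd_factor' h i
          rw [← hqd] at h4
          obtain ⟨a, ha, ha0⟩ := h3 q hq h4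
          refine hlinK K i a ?_ ha
          rw [hqu, Polynomial.eval_mul, ha0, mul_zero]
        · refine ⟨hFr o, ?_⟩
          rw [hpr]
          refine h2 (hεo ?_)
          have := o.2
          omega
  obtain ⟨A, hAK, hAe, hA6⟩ := cur_a hN K' hne' (fun k hk => ((hmem k).1 hk).1) hcard'
  obtain ⟨A1, hA1⟩ : ∃ A1 : Finset (Fin r), A1 = univ.filter (fun i => Sum.inl i ∈ A) := ⟨_, rfl⟩
  have hA1m : ∀ i, i ∈ A1 ↔ Sum.inl i ∈ A := by
    intro i
    rw [hA1, mem_filter]
    exact ⟨fun h0 => h0.2, fun h0 => ⟨mem_univ _, h0⟩⟩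
  have hsum : ∑ a ∈ A, F.n a = ∑ i ∈ A1, (g i).natDegree +
      (univ.filter (fun o : Fin ε => (Sum.inr o : Fin r ⊕ Fin ε) ∈ A)).card := by
    have e1 : ∑ a ∈ A, F.n a = ∑ a, if a ∈ A then F.n a else 0 := by
      rw [← sum_filter, filter_mem_eq_inter, univ_inter]
    rw [e1, Fintype.sum_sum_type, hA1, sum_filter, card_filter]
    congr 1
    · exact sum_congr rfl fun i _ => by rw [hFl]
    · exact sum_congr rfl fun i _ => by rw [hFr]
  have hle1 : (univ.filter (fun o : Fin ε => (Sum.inr o : Fin r ⊕ Fin ε) ∈ A)).card ≤ 1 := by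
    refine (card_filter_le _ _).trans ?_
    rw [card_univ, Fintype.card_fin]
    omega
  obtain ⟨G, hG⟩ : ∃ G : Polynomial ℚ, G = ∏ i ∈ A1, (g i).map (Int.castRingHom ℚ) := ⟨_, rfl⟩
  have hGd : G.natDegree = ∑ i ∈ A1, (g i).natDegree := by
    rw [hG, Polynomial.natDegree_prod _ _ fun i _ => hp0 i]
    exact sum_congr rfl fun i _ => hpd i
  have hG0 : G ≠ 0 := by
    rw [hG]
    exact prod_ne_zero_iff.2 fun i _ => hp0 i
  have hGdvd : G ∣ f.map (Int.castRingHom ℚ) := by
    have h1 : f.map (Int.castRingHom ℚ) = Polynomial.C ((c : ℤ) : ℚ) *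
        ∏ i, (g i).map (Int.castRingHom ℚ) := by
      conv_lhs => rw [h.fac]
      rw [Polynomial.map_mul, Polynomial.map_C, Polynomial.map_prod]
      rfl
    rw [h1, hG]
    exact (prod_dvd_prod_of_subset _ _ _ (subset_univ A1)).mul_left _
  have hval : ∀ a ∈ K, pval G a ≠ 0 := by
    intro a ha
    cases a with
    | none => exact Polynomial.leadingCoeff_ne_zero.2 hG0
    | some a =>
      show G.eval a ≠ 0
      rw [hG, Polynomial.eval_prod]
      refine prod_ne_zero_iff.2 fun i hi h0 => ?_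
      exact hAK _ ((hA1m i).1 hi) ((hmem _).2 (hlinK K i a h0 ha))
  have hpar : Even G.natDegree ∨ (Odd f.natDegree ∧ none ∉ K) := by
    by_cases hno : ∃ o : Fin ε, (Sum.inr o : Fin r ⊕ Fin ε) ∈ A
    · right
      obtain ⟨o, ho⟩ := hno
      refine ⟨hεo (by have := o.2; omega), fun hK0 => ?_⟩
      exact hAK _ ho ((hmem _).2 ⟨hFr o, by rw [hpr]; exact hK0⟩)
    · left
      have h1 : (univ.filter (fun o : Fin ε => (Sum.inr o : Fin r ⊕ Fin ε) ∈ A)).card = 0 := by
        rw [card_eq_zero, filter_eq_empty_iff]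
        intro o _ ho
        exact hno ⟨o, ho⟩
      rw [h1, add_zero] at hsum
      rw [hGd, ← hsum]
      exact hAe
  have hsq := hKG G hGdvd hval hpar
  obtain ⟨k, hk⟩ := hne'
  have hkK := ((hmem k).1 hk).2
  have hv0 := hval _ hkK
  refine ⟨Polynomial.C (pval G (pm g k)) * G, ?_, ?_⟩
  · rw [mem_filter]
    refine ⟨?_, ?_, ?_⟩
    · rw [mem_image]
      refine ⟨(A1, k), mem_product.2 ⟨mem_univ _, mem_univ _⟩, ?_⟩
      show Polynomial.C (pval (∏ i ∈ A1, (g i).map (Int.castRingHom ℚ)) (pm g k)) *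
        ∏ i ∈ A1, (g i).map (Int.castRingHom ℚ) = _
      rw [← hG]
    · have h1 : G.Separable := by
        rw [hG]
        exact Polynomial.separable_prod' (fun i _ j _ hij => h.cop i j hij)
          fun i _ => (h.irr i).separable
      refine Polynomial.Separable.mul ((Polynomial.separable_C _).2 hv0.isUnit) h1 ?_
      obtain ⟨w, hw⟩ := ((Polynomial.isUnit_C (R := ℚ)).2 hv0.isUnit).exists_left_inv
      exact ⟨w, 0, by rw [hw, zero_mul, add_zero]⟩
    · rw [Polynomial.natDegree_C_mul hv0, hGd]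
      omega
  · rw [Polynomial.eval_mul, Polynomial.eval_C]
    exact hsq _ hkK

end Pool.Agent.QTW
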