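import Pool.Agent.QTW.Setup

/-!
# QTX: twists of curves with rational Weierstrass points (definitions)
-/

set_option autoImplicit false

namespace Pool.Agent.QTW

open Finset

variable {I : Type} [Fintype I] [DecidableEq I]

/-- Faltings' theorem for hyperelliptic curves `y² = h(x)`, `deg h ≥ 5` -/
def Faltings : Prop := ∀ h : Polynomial ℤ, (h.map (Int.castRingHom ℚ)).Separable →
  5 ≤ h.natDegree →
  {p : ℚ × ℚ | p.2 ^ 2 = (h.map (Int.castRingHom ℚ)).eval p.1}.Finite

/-- Families of pairwise coprime forms: every form is linear with coprime coefficients, or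
nonlinear and irreducible. -/
structure Adm3 (F : Fam I) : Prop where
  deg : ∀ k, (F.f k).natDegree ≤ F.n k
  lin : ∀ k, F.n k = 1 → IsCoprime ((F.f k).coeff 0) ((F.f k).coeff 1)
  non : ∀ k, F.n k ≠ 1 → F.n k = (F.f k).natDegree ∧ 2 ≤ (F.f k).natDegree ∧
    Irreducible ((F.f k).map (Int.castRingHom ℚ))
  cop : ∀ i j, i ≠ j →
    IsCoprime ((F.f i).map (Int.castRingHom ℚ)) ((F.f j).map (Int.castRingHom ℚ))
  lead : ∀ i j, i ≠ j → (F.f i).coeff (F.n i) ≠ 0 ∨ (F.f j).coeff (F.n j) ≠ 0

/-- the value of the form `l` at the zero `(-b : a)` of the linear form `k` with `F.f k = a X + b` -/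
noncomputable def bet (F : Fam I) (k l : I) : ℤ :=
  hom (F.f l) (F.n l) (-(F.f k).coeff 0) ((F.f k).coeff 1)

/-- the indices of the forms of odd degree -/
def oddF (F : Fam I) : Finset I := univ.filter (fun i => Odd (F.n i))

theorem mem_oddF {F : Fam I} {i : I} : i ∈ oddF F ↔ Odd (F.n i) := by
  rw [oddF, mem_filter]
  exact ⟨fun h => h.2, fun h => ⟨mem_univ i, h⟩⟩

open Classical in
/-- `2` if there are forms of odd degree and all of them are in `K`, otherwise `1` -/
noncomputable def tt (F : Fam I) (K : Finset I) : ℝ :=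
  if (oddF F).Nonempty ∧ oddF F ⊆ K then 2 else 1

/-- `Sq3 F u K s k`: no restriction on the primes dividing `D k`, `k` linear -/
def Sq3 (F : Fam I) (u : I → ℤ) (K : Finset I) (s : I → ℕ) (k : I) : Prop :=
  (∀ l, l ∉ K → Even (F.n l) → IsSquare (u l * (s l : ℤ) * bet F k l)) ∧
  (∀ l m, l ∉ K → m ∉ K → Odd (F.n l) → Odd (F.n m) →
    IsSquare ((u l * (s l : ℤ) * bet F k l) * (u m * (s m : ℤ) * bet F k m)))

/-- the exceptional cases -/
def Exc3 (F : Fam I) (u : I → ℤ) (K : Finset I) (s : I → ℕ) : Prop :=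
  (∀ k ∈ K, F.n k = 1) ∧ (K.card = 1 ∨ K.card = 2 ∨ (K = oddF F ∧ K.card = 4)) ∧
    ∀ k ∈ K, Sq3 F u K s k

/-- the condition satisfied by the tuples coming from points, with finitely many exceptions -/
def N3 (F : Fam I) (u : I → ℤ) (K : Finset I) (s : I → ℕ) : Prop := ¬ Exc3 F u K s

/-- the numerical conditions on the family -/
structure Num3 (F : Fam I) : Prop where
  even : Even (∑ i, F.n i)
  two : (oddF F).card ≠ 2
  eight : 8 ≤ ∑ i, F.n i
  ten : (oddF F).card = 4 → (∀ k ∈ oddF F, F.n k = 1) → 10 ≤ ∑ i, F.n i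

end Pool.Agent.QTW
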