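import Pool.Agent.QTX.Set3

/-!
# QTX, unconditional part: exceptional points (definitions)
-/

set_option autoImplicit false

namespace Pool.Agent.QTW

open Finset

/-- value of a polynomial at a point of the projective line; `none` is the point at infinity -/
noncomputable def pval (G : Polynomial ℚ) : Option ℚ → ℚ
  | none => G.leadingCoeff
  | some a => G.eval a

/-- rational Weierstrass points of `y² = f(x)`; `none` is the point at infinity -/
def IsW (f : Polynomial ℤ) : Option ℚ → Prop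
  | none => Odd f.natDegree
  | some a => (f.map (Int.castRingHom ℚ)).eval a = 0

/-- exceptional points -/
def Excep (f : Polynomial ℤ) (x : ℚ) : Prop :=
  ∃ K : Finset (Option ℚ), K.Nonempty ∧ (∀ a ∈ K, IsW f a) ∧
    (K.card ≤ 2 ∨ (K.card = 4 ∧ (Odd f.natDegree → none ∈ K) ∧
      ∀ q ∈ UniqueFactorizationMonoid.normalizedFactors (f.map (Int.castRingHom ℚ)),
        Odd q.natDegree → ∃ a : ℚ, some a ∈ K ∧ q.eval a = 0)) ∧
    ∀ G : Polynomial ℚ, G ∣ f.map (Int.castRingHom ℚ) → (∀ a ∈ K, pval G a ≠ 0) →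
      (Even G.natDegree ∨ (Odd f.natDegree ∧ none ∉ K)) →
      ∀ a ∈ K, IsSquare (pval G a * G.eval x)

/-- `f = c ∏ g i` with primitive irreducible, pairwise coprime `g i` -/
structure FD (f : Polynomial ℤ) {r : ℕ} (g : Fin r → Polynomial ℤ) (c : ℤ) : Prop where
  hc : c ≠ 0
  fac : f = Polynomial.C c * ∏ i, g i
  prim : ∀ i, (g i).IsPrimitive
  irr : ∀ i, Irreducible ((g i).map (Int.castRingHom ℚ))
  cop : ∀ i j, i ≠ j →
    IsCoprime ((g i).map (Int.castRingHom ℚ)) ((g j).map (Int.castRingHom ℚ))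

/-- the point of the projective line attached to a linear form of the family `fam3 g ε` -/
noncomputable def pm {r : ℕ} (g : Fin r → Polynomial ℤ) {ε : ℕ} : Fin r ⊕ Fin ε → Option ℚ :=
  Sum.elim (fun i => some (-(((g i).coeff 0 : ℤ) : ℚ) / (((g i).coeff 1 : ℤ) : ℚ))) (fun _ => none)

/-- number of squarefree `d`, `|d| < B`, such that the twist has a point which is not in `E` -/
noncomputable def NfE (f : Polynomial ℤ) (E : ℚ → Prop) (B : ℕ) : ℕ :=
  {d : ℤ | |d| < (B : ℤ) ∧ Squarefree d ∧ ∃ x y : ℚ, y ≠ 0 ∧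
    (d : ℚ) * y ^ 2 = (f.map (Int.castRingHom ℚ)).eval x ∧ ¬ E x}.ncard

end Pool.Agent.QTW
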