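import Pool.Agent.QTX.Defs4

/-!
# QTX-Div4: divisors, factors and roots of `f = c ∏ g i`
-/

set_option autoImplicit false

namespace Pool.Agent.QTW

open Finset

private theorem d4_map {f : Polynomial ℤ} {r : ℕ} {g : Fin r → Polynomial ℤ} {c : ℤ}
    (h : FD f g c) : f.map (Int.castRingHom ℚ) =
      Polynomial.C (c : ℚ) * ∏ i, (g i).map (Int.castRingHom ℚ) := by
  conv_lhs => rw [h.fac]
  rw [Polynomial.map_mul, Polynomial.map_C, Polynomial.map_prod]
  rfl

private theorem d4_c {f : Polynomial ℤ} {r : ℕ} {g : Fin r → Polynomial ℤ} {c : ℤ}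
    (h : FD f g c) : (c : ℚ) ≠ 0 := Int.cast_ne_zero.2 h.hc

private theorem d4_dvd {r : ℕ} (p : Fin r → Polynomial ℚ) (hirr : ∀ i, Irreducible (p i))
    (s : Finset (Fin r)) : ∀ (c : ℚ), c ≠ 0 → ∀ G : Polynomial ℚ,
      G ∣ Polynomial.C c * ∏ i ∈ s, p i → ∃ A : Finset (Fin r), A ⊆ s ∧ ∃ c₀ : ℚ, c₀ ≠ 0 ∧
        G = Polynomial.C c₀ * ∏ i ∈ A, p i := by
  induction s using Finset.induction_on with
  | empty =>
    intro c hc G hG
    rw [prod_empty, mul_one] at hG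
    have hu : IsUnit G := isUnit_of_dvd_unit hG (Polynomial.isUnit_C.2 (isUnit_iff_ne_zero.2 hc))
    obtain ⟨c₀, h0, h1⟩ := Polynomial.isUnit_iff.1 hu
    exact ⟨∅, Subset.refl _, c₀, h0.ne_zero, by rw [prod_empty, mul_one, h1]⟩
  | insert a s ha ih =>
    intro c hc G hG
    rw [prod_insert ha] at hG
    have e : Polynomial.C c * (p a * ∏ i ∈ s, p i) = p a * (Polynomial.C c * ∏ i ∈ s, p i) := by
      ring
    rw [e] at hG
    by_cases hd : p a ∣ G
    · obtain ⟨G', rfl⟩ := hd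
      have hG' := (mul_dvd_mul_iff_left (hirr a).ne_zero).1 hG
      obtain ⟨A, hA, c₀, h0, h1⟩ := ih c hc G' hG'
      refine ⟨insert a A, insert_subset_insert a hA, c₀, h0, ?_⟩
      rw [prod_insert (fun h => ha (hA h)), h1]
      ring
    · have hcop := ((hirr a).coprime_iff_not_dvd).2 hd
      have hG' := hcop.symm.dvd_of_dvd_mul_left hG
      obtain ⟨A, hA, c₀, h0, h1⟩ := ih c hc G hG'
      exact ⟨A, hA.trans (subset_insert a s), c₀, h0, h1⟩

private theorem d4_ass {p q : Polynomial ℚ} (h : Associated p q) :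
    ∃ u : ℚ, u ≠ 0 ∧ q = Polynomial.C u * p ∧ q.natDegree = p.natDegree := by
  obtain ⟨w, hw⟩ := h
  obtain ⟨u, h0, h1⟩ := Polynomial.isUnit_iff.1 w.isUnit
  have e : q = Polynomial.C u * p := by
    rw [h1, mul_comm, hw]
  exact ⟨u, h0.ne_zero, e, by rw [e, Polynomial.natDegree_C_mul h0.ne_zero]⟩

private theorem d4_deg {f : Polynomial ℤ} {r : ℕ} {g : Fin r → Polynomial ℤ} {c : ℤ}
    (_h : FD f g c) (i : Fin r) :
    ((g i).map (Int.castRingHom ℚ)).natDegree = (g i).natDegree :=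
  Polynomial.natDegree_map_eq_of_injective Int.cast_injective _

theorem fd_dvd {f : Polynomial ℤ} {r : ℕ} {g : Fin r → Polynomial ℤ} {c : ℤ} (h : FD f g c)
    {G : Polynomial ℚ} (hG : G ∣ f.map (Int.castRingHom ℚ)) :
    ∃ (A : Finset (Fin r)) (c₀ : ℚ), c₀ ≠ 0 ∧
      G = Polynomial.C c₀ * ∏ i ∈ A, (g i).map (Int.castRingHom ℚ) := by
  rw [d4_map h] at hG
  obtain ⟨A, _, c₀, h0, h1⟩ := d4_dvd _ h.irr univ (c : ℚ) (d4_c h) G hG
  exact ⟨A, c₀, h0, h1⟩

/-- a linear factor and its root -/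
theorem fd_root {f : Polynomial ℤ} {r : ℕ} {g : Fin r → Polynomial ℤ} {c : ℤ} (h : FD f g c)
    (i : Fin r) (hi : (g i).natDegree = 1) (x : ℚ) : (g i).coeff 1 ≠ 0 ∧
      ((g i).map (Int.castRingHom ℚ)).eval x =
        (((g i).coeff 1 : ℤ) : ℚ) * (x + (((g i).coeff 0 : ℤ) : ℚ) / (((g i).coeff 1 : ℤ) : ℚ)) := by
  have h0 : (g i).coeff 1 ≠ 0 := by
    have h1 : (g i).leadingCoeff ≠ 0 := by
      rw [Polynomial.leadingCoeff_ne_zero]
      intro h2
      rw [h2, Polynomial.natDegree_zero] at hi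
      exact zero_ne_one hi
    rwa [Polynomial.leadingCoeff, hi] at h1
  refine ⟨h0, ?_⟩
  have e := Polynomial.eq_X_add_C_of_natDegree_le_one hi.le
  have e2 := congrArg (fun q => (q.map (Int.castRingHom ℚ)).eval x) e
  simp only [Polynomial.map_add, Polynomial.map_mul, Polynomial.map_C, Polynomial.map_X,
    Polynomial.eval_add, Polynomial.eval_mul, Polynomial.eval_C, Polynomial.eval_X] at e2
  have h1 : (((g i).coeff 1 : ℤ) : ℚ) ≠ 0 := Int.cast_ne_zero.2 h0
  rw [e2]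
  show (((g i).coeff 1 : ℤ) : ℚ) * x + (((g i).coeff 0 : ℤ) : ℚ) = _
  rw [mul_add, mul_div_cancel₀ _ h1]

/-- if a factor has a rational zero it is linear -/
theorem fd_lin {f : Polynomial ℤ} {r : ℕ} {g : Fin r → Polynomial ℤ} {c : ℤ} (h : FD f g c)
    (i : Fin r) {a : ℚ} (ha : ((g i).map (Int.castRingHom ℚ)).eval a = 0) :
    (g i).natDegree = 1 ∧ a = -(((g i).coeff 0 : ℤ) : ℚ) / (((g i).coeff 1 : ℤ) : ℚ) := by
  have h1 : (g i).natDegree = 1 := by
    have h2 := Polynomial.degree_eq_one_of_irreducible_of_root (h.irr i) ha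
    have h3 := Polynomial.natDegree_eq_of_degree_eq_some h2
    rwa [d4_deg h] at h3
  refine ⟨h1, ?_⟩
  obtain ⟨h2, h3⟩ := fd_root h i h1 a
  rw [ha] at h3
  have h4 : (((g i).coeff 1 : ℤ) : ℚ) ≠ 0 := Int.cast_ne_zero.2 h2
  have h5 := (mul_eq_zero.1 h3.symm).resolve_left h4
  rw [neg_div]
  linarith

theorem fd_factor {f : Polynomial ℤ} {r : ℕ} {g : Fin r → Polynomial ℤ} {c : ℤ} (h : FD f g c)
    {q : Polynomial ℚ}
    (hq : q ∈ UniqueFactorizationMonoid.normalizedFactors (f.map (Int.castRingHom ℚ))) :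
    ∃ (i : Fin r) (u : ℚ), u ≠ 0 ∧ q = Polynomial.C u * (g i).map (Int.castRingHom ℚ) ∧
      q.natDegree = (g i).natDegree := by
  have hirr := UniqueFactorizationMonoid.irreducible_of_normalized_factor q hq
  have hdvd := UniqueFactorizationMonoid.dvd_of_mem_normalizedFactors hq
  rw [d4_map h] at hdvd
  have h1 : q ∣ ∏ i, (g i).map (Int.castRingHom ℚ) := by
    rcases hirr.prime.dvd_or_dvd hdvd with h2 | h2
    · exact absurd (isUnit_of_dvd_unit h2 (Polynomial.isUnit_C.2 (isUnit_iff_ne_zero.2 (d4_c h))))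
        hirr.not_isUnit
    · exact h2
  obtain ⟨i, _, hi⟩ := (hirr.prime.dvd_finsetProd_iff _).1 h1
  obtain ⟨u, h0, h2, h3⟩ := d4_ass (hirr.associated_of_dvd (h.irr i) hi).symm
  exact ⟨i, u, h0, h2, by rw [h3, d4_deg h]⟩

/-- every `g i` is, up to a constant, one of the normalized factors -/
theorem fd_factor' {f : Polynomial ℤ} {r : ℕ} {g : Fin r → Polynomial ℤ} {c : ℤ} (h : FD f g c)
    (i : Fin r) : ∃ (q : Polynomial ℚ) (u : ℚ), u ≠ 0 ∧
      q ∈ UniqueFactorizationMonoid.normalizedFactors (f.map (Int.castRingHom ℚ)) ∧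
      (g i).map (Int.castRingHom ℚ) = Polynomial.C u * q ∧ q.natDegree = (g i).natDegree := by
  have h0 : f.map (Int.castRingHom ℚ) ≠ 0 := by
    rw [d4_map h]
    exact mul_ne_zero (Polynomial.C_ne_zero.2 (d4_c h))
      (prod_ne_zero_iff.2 fun i _ => (h.irr i).ne_zero)
  have h1 : (g i).map (Int.castRingHom ℚ) ∣ f.map (Int.castRingHom ℚ) := by
    rw [d4_map h]
    exact Dvd.dvd.mul_left (dvd_prod_of_mem (fun i => (g i).map (Int.castRingHom ℚ)) (mem_univ i)) _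
  obtain ⟨q, hq, ha⟩ :=
    UniqueFactorizationMonoid.exists_mem_normalizedFactors_of_dvd h0 (h.irr i) h1
  obtain ⟨u, h2, h3, h4⟩ := d4_ass ha.symm
  exact ⟨q, u, h2, hq, h3, by rw [← h4, d4_deg h]⟩

/-- the finite rational Weierstrass points are the roots of the linear `g i` -/
theorem fd_isW {f : Polynomial ℤ} {r : ℕ} {g : Fin r → Polynomial ℤ} {c : ℤ} (h : FD f g c)
    (a : ℚ) : IsW f (some a) ↔ ∃ i, ((g i).map (Int.castRingHom ℚ)).eval a = 0 := by
  show (f.map (Int.castRingHom ℚ)).eval a = 0 ↔ _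
  rw [d4_map h, Polynomial.eval_mul, Polynomial.eval_C, Polynomial.eval_prod, mul_eq_zero,
    or_iff_right (d4_c h), prod_eq_zero_iff]
  constructor
  · rintro ⟨i, _, hi⟩
    exact ⟨i, hi⟩
  · rintro ⟨i, hi⟩
    exact ⟨i, mem_univ i, hi⟩

end Pool.Agent.QTW
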