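import Pool.Agent.QTX.Defs
import Pool.Agent.QTW.Rep

/-!
# QTX-ExcB: finiteness of the exceptional points

The polynomial attached to a set of forms is separable of degree at least five, so that Faltings'
theorem applies to it.
-/

set_option autoImplicit false

namespace Pool.Agent.QTW

open Finset

variable {I : Type} [Fintype I] [DecidableEq I]

private theorem excb_lin {F : Fam I} (hA : Adm3 F) {k : I} (hk : F.n k = 1) :
    F.f k = Polynomial.C ((F.f k).coeff 1) * Polynomial.X + Polynomial.C ((F.f k).coeff 0) := by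
  have h := hA.deg k
  rw [hk] at h
  exact Polynomial.eq_X_add_C_of_natDegree_le_one h

private theorem excb_unit {F : Fam I} (hA : Adm3 F) {k : I} (hk : F.n k = 1)
    (h0 : (F.f k).coeff 1 = 0) : IsUnit ((F.f k).coeff 0) := by
  have h := hA.lin k hk
  rw [h0, isCoprime_zero_right] at h
  exact h

private theorem excb_map {F : Fam I} (hA : Adm3 F) {a : I} (h : F.n a = 1) :
    (F.f a).map (Int.castRingHom ℚ) =
        Polynomial.C (((F.f a).coeff 1 : ℤ) : ℚ) * Polynomial.X +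
          Polynomial.C (((F.f a).coeff 0 : ℤ) : ℚ) := by
  have h1 := excb_lin hA h
  conv_lhs => rw [h1]
  simp

private theorem excb_ev {F : Fam I} (hA : Adm3 F) {a : I} (h : F.n a = 1) (x : ℚ) :
    ((F.f a).map (Int.castRingHom ℚ)).eval x =
        (((F.f a).coeff 1 : ℤ) : ℚ) * x + (((F.f a).coeff 0 : ℤ) : ℚ) := by
  rw [excb_map hA h, Polynomial.eval_add, Polynomial.eval_mul, Polynomial.eval_C,
    Polynomial.eval_C, Polynomial.eval_X]

private theorem excb_ul {R : Type} [CommRing R] {x y : R} (h : IsUnit x) : IsCoprime x y := by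
  obtain ⟨z, hz⟩ := h.exists_left_inv
  exact ⟨z, 0, by rw [hz, zero_mul, add_zero]⟩

theorem bet_ne {F : Fam I} (hA : Adm3 F) {k l : I} (hkl : k ≠ l) (hk : F.n k = 1) :
    bet F k l ≠ 0 := by
  by_cases ha : (F.f k).coeff 1 = 0
  · have hb := excb_unit hA hk ha
    have hl : (F.f l).coeff (F.n l) ≠ 0 := by
      rcases hA.lead k l hkl with h | h
      · rw [hk] at h
        exact absurd ha h
      · exact h
    have h1 : bet F k l = (F.f l).coeff (F.n l) * (-(F.f k).coeff 0) ^ (F.n l) := by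
      rw [bet, ha, hom, Finset.sum_eq_single (F.n l)]
      · simp
      · intro i hi hin
        rw [Finset.mem_range] at hi
        rw [zero_pow (by omega), mul_zero]
      · intro h
        exact absurd (Finset.mem_range.2 (by omega)) h
    rw [h1]
    refine mul_ne_zero hl (pow_ne_zero _ (neg_ne_zero.2 ?_))
    exact hb.ne_zero
  · intro h0
    have h1 := hom_eval (F.f l) (F.n l) (hA.deg l) (-(F.f k).coeff 0) ((F.f k).coeff 1) ha
    have h2 : hom (F.f l) (F.n l) (-(F.f k).coeff 0) ((F.f k).coeff 1) = 0 := h0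
    have haQ : (((F.f k).coeff 1 : ℤ) : ℚ) ≠ 0 := by exact_mod_cast ha
    rw [h2, Int.cast_zero] at h1
    have h3 : ((F.f l).map (Int.castRingHom ℚ)).eval
        (((-(F.f k).coeff 0 : ℤ) : ℚ) / (((F.f k).coeff 1 : ℤ) : ℚ)) = 0 := by
      rcases mul_eq_zero.1 h1.symm with h | h
      · exact h
      · exact absurd h (pow_ne_zero _ haQ)
    have h4 : ((F.f k).map (Int.castRingHom ℚ)).eval
        (((-(F.f k).coeff 0 : ℤ) : ℚ) / (((F.f k).coeff 1 : ℤ) : ℚ)) = 0 := by
      rw [excb_ev hA hk, mul_div_cancel₀ _ haQ]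
      push_cast
      ring
    obtain ⟨p, q, hpq⟩ := hA.cop k l hkl
    have h5 := congrArg (Polynomial.eval
      (((-(F.f k).coeff 0 : ℤ) : ℚ) / (((F.f k).coeff 1 : ℤ) : ℚ))) hpq
    rw [Polynomial.eval_add, Polynomial.eval_mul, Polynomial.eval_mul, h3, h4, mul_zero, mul_zero,
      add_zero, Polynomial.eval_one] at h5
    exact zero_ne_one h5

private theorem excb_sep {F : Fam I} (hA : Adm3 F) (a : I) :
    ((F.f a).map (Int.castRingHom ℚ)).Separable := by
  by_cases h : F.n a = 1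
  · rw [excb_map hA h]
    unfold Polynomial.Separable
    by_cases h0 : (F.f a).coeff 1 = 0
    · have h3 := excb_unit hA h h0
      rw [h0, Int.cast_zero, Polynomial.C_0, zero_mul, zero_add]
      refine excb_ul ?_
      rw [Polynomial.isUnit_C]
      exact (Int.cast_ne_zero.2 h3.ne_zero).isUnit
    · have h3 : Polynomial.derivative (Polynomial.C (((F.f a).coeff 1 : ℤ) : ℚ) * Polynomial.X +
          Polynomial.C (((F.f a).coeff 0 : ℤ) : ℚ)) =
          Polynomial.C (((F.f a).coeff 1 : ℤ) : ℚ) := by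
        simp
      rw [h3]
      refine (excb_ul ?_).symm
      rw [Polynomial.isUnit_C]
      exact (Int.cast_ne_zero.2 h0).isUnit
  · exact (hA.non a h).2.2.separable

private theorem excb_ne {F : Fam I} (hA : Adm3 F) (a : I) : F.f a ≠ 0 := by
  intro h
  have h1 := (excb_sep hA a).ne_zero
  rw [h, Polynomial.map_zero] at h1
  exact h1 rfl

private theorem excb_deg {F : Fam I} (hA : Adm3 F) (A : Finset I) :
    ∑ a ∈ A, F.n a ≤ ∑ a ∈ A, (F.f a).natDegree + 1 := by
  have hcase : ∀ a, (F.f a).natDegree ≠ F.n a → F.n a = 1 ∧ (F.f a).coeff (F.n a) = 0 := by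
    intro a ha
    have h1 : F.n a = 1 := by
      by_contra h
      exact ha (hA.non a h).1.symm
    refine ⟨h1, ?_⟩
    have h2 := hA.deg a
    exact Polynomial.coeff_eq_zero_of_natDegree_lt (lt_of_le_of_ne h2 ha)
  by_cases hex : ∃ a ∈ A, (F.f a).natDegree ≠ F.n a
  · obtain ⟨a, haA, ha⟩ := hex
    obtain ⟨h1, h2⟩ := hcase a ha
    rw [← Finset.add_sum_erase A _ haA, ← Finset.add_sum_erase A (fun a => (F.f a).natDegree) haA]
    have h3 : ∑ x ∈ A.erase a, F.n x = ∑ x ∈ A.erase a, (F.f x).natDegree := by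
      refine Finset.sum_congr rfl fun x hx => ?_
      by_contra hne
      obtain ⟨_, h4⟩ := hcase x (Ne.symm hne)
      have hxa : x ≠ a := (Finset.mem_erase.1 hx).1
      rcases hA.lead x a hxa with h | h
      · exact h h4
      · exact h h2
    omega
  · push Not at hex
    rw [Finset.sum_congr rfl fun a ha => (hex a ha).symm]
    omega

theorem exc_b (hF : Faltings) {F : Fam I} (hA : Adm3 F) (A : Finset I) (k : I) (hk : k ∉ A)
    (hk1 : F.n k = 1) (he : Even (∑ a ∈ A, F.n a)) (h6 : 6 ≤ ∑ a ∈ A, F.n a) :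
    {x : ℤ × ℤ | IsCoprime x.1 x.2 ∧
      IsSquare ((∏ a ∈ A, bet F k a) * ∏ a ∈ A, hom (F.f a) (F.n a) x.1 x.2)}.Finite := by
  obtain ⟨c, hc⟩ : ∃ c : ℤ, c = ∏ a ∈ A, bet F k a := ⟨_, rfl⟩
  have hc0 : c ≠ 0 := by
    rw [hc]
    refine Finset.prod_ne_zero_iff.2 fun a ha => bet_ne hA ?_ hk1
    intro h
    rw [h] at hk
    exact hk ha
  have hcQ : ((c : ℤ) : ℚ) ≠ 0 := Int.cast_ne_zero.2 hc0
  obtain ⟨h, hh⟩ : ∃ h : Polynomial ℤ, h = Polynomial.C c * ∏ a ∈ A, F.f a := ⟨_, rfl⟩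
  have hmap : h.map (Int.castRingHom ℚ) =
      Polynomial.C ((c : ℤ) : ℚ) * ∏ a ∈ A, (F.f a).map (Int.castRingHom ℚ) := by
    rw [hh, Polynomial.map_mul, Polynomial.map_C, Polynomial.map_prod]
    rfl
  have hCu : IsUnit (Polynomial.C ((c : ℤ) : ℚ)) := Polynomial.isUnit_C.2 hcQ.isUnit
  have hsep : (h.map (Int.castRingHom ℚ)).Separable := by
    rw [hmap]
    refine Polynomial.Separable.mul (Polynomial.separable_C _ |>.2 hcQ.isUnit)
      (Polynomial.separable_prod' (fun x _ y _ hxy => hA.cop x y hxy) fun x _ => excb_sep hA x)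
      (excb_ul hCu)
  have hdeg : 5 ≤ h.natDegree := by
    have h1 : h.natDegree = ∑ a ∈ A, (F.f a).natDegree := by
      rw [hh, Polynomial.natDegree_C_mul hc0, Polynomial.natDegree_prod _ _ fun a _ => excb_ne hA a]
    have h2 := excb_deg hA A
    omega
  have hfin := hF h hsep hdeg
  obtain ⟨m, hm⟩ := he
  have hfin2 := ((hfin.image Prod.fst).prod (Set.toFinite ({1, -1} : Set ℤ))).image
    (fun q : ℚ × ℤ => (q.2 * q.1.num, q.2 * (q.1.den : ℤ)))
  refine (hfin2.union (Set.toFinite ({(1, 0), (-1, 0)} : Set (ℤ × ℤ)))).subset ?_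
  rintro ⟨X, Z⟩ ⟨hcop, w, hw⟩
  have hcop' : IsCoprime X Z := hcop
  have hw' : c * ∏ a ∈ A, hom (F.f a) (F.n a) X Z = w * w := by
    rw [hc]
    exact hw
  by_cases hZ : Z = 0
  · right
    rw [hZ, isCoprime_zero_right, Int.isUnit_iff] at hcop'
    rcases hcop' with h1 | h1
    · left
      rw [hZ, h1]
    · right
      rw [hZ, h1]
      rfl
  · left
    have hZQ : (Z : ℚ) ≠ 0 := Int.cast_ne_zero.2 hZ
    have hmem : ((X : ℚ) / Z) ∈ Prod.fst '' {p : ℚ × ℚ | p.2 ^ 2 =
        (h.map (Int.castRingHom ℚ)).eval p.1} := by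
      refine ⟨((X : ℚ) / Z, (w : ℚ) / (Z : ℚ) ^ m), ?_, rfl⟩
      show ((w : ℚ) / (Z : ℚ) ^ m) ^ 2 = (h.map (Int.castRingHom ℚ)).eval ((X : ℚ) / Z)
      rw [hmap, Polynomial.eval_mul, Polynomial.eval_C, Polynomial.eval_prod]
      have h1 : ((w : ℚ)) ^ 2 = (c : ℚ) *
          ∏ a ∈ A, ((F.f a).map (Int.castRingHom ℚ)).eval ((X : ℚ) / Z) * (Z : ℚ) ^ (F.n a) := by
        rw [pow_two, ← Int.cast_mul, ← hw', Int.cast_mul, Int.cast_prod]
        congr 1
        exact Finset.prod_congr rfl fun a _ => hom_eval (F.f a) (F.n a) (hA.deg a) X Z hZ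
      rw [Finset.prod_mul_distrib, Finset.prod_pow_eq_pow_sum, hm, ← mul_assoc] at h1
      rw [div_pow, h1, ← pow_mul, div_eq_iff (pow_ne_zero _ hZQ), mul_two]
    rcases lt_or_gt_of_ne hZ with hneg | hpos
    · refine ⟨((X : ℚ) / Z, -1), ⟨hmem, by simp⟩, ?_⟩
      have h1 : ((X : ℚ) / Z) = (((-X : ℤ) : ℚ) / ((-Z : ℤ) : ℚ)) := by
        push_cast
        rw [neg_div_neg_eq]
      have hcp : Nat.Coprime (-X).natAbs (-Z).natAbs := by
        rw [Int.natAbs_neg, Int.natAbs_neg]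
        exact Int.isCoprime_iff_gcd_eq_one.1 hcop'
      have h2 := Rat.num_div_eq_of_coprime (a := -X) (b := -Z) (by omega) hcp
      have h3 := Rat.den_div_eq_of_coprime (a := -X) (b := -Z) (by omega) hcp
      show (-1 * ((X : ℚ) / Z).num, -1 * (((X : ℚ) / Z).den : ℤ)) = (X, Z)
      rw [h1, h2, h3]
      simp
    · refine ⟨((X : ℚ) / Z, 1), ⟨hmem, by simp⟩, ?_⟩
      have hcp : Nat.Coprime X.natAbs Z.natAbs := Int.isCoprime_iff_gcd_eq_one.1 hcop'
      have h2 := Rat.num_div_eq_of_coprime (a := X) (b := Z) hpos hcp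
      have h3 := Rat.den_div_eq_of_coprime (a := X) (b := Z) hpos hcp
      show (1 * ((X : ℚ) / Z).num, 1 * (((X : ℚ) / Z).den : ℤ)) = (X, Z)
      rw [h2, h3, one_mul, one_mul]

end Pool.Agent.QTW
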