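import Pool.Agent.QTX.ExcA
import Pool.Agent.QTX.ExcB

/-!
# QTX-Exc: finiteness of the exceptional twists

A given pair `(X, Z)` belongs to finitely many twists (`exc_c`), and only finitely many twists have a
point whose tuple is exceptional (`exc_fin`).
-/

set_option autoImplicit false

namespace Pool.Agent.QTW

open Finset

variable {I : Type} [Fintype I] [DecidableEq I]

private theorem exc_le {h u v : ℤ} {D : ℕ} {P : ℕ} (hP : P ≠ 0) (hu : u ∣ (P : ℤ)) (hv : v ≠ 0)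
    (e : h = u * (D : ℤ) * v ^ 2) : D ≤ h.natAbs := by
  have hu0 : u ≠ 0 := by
    rintro rfl
    rw [zero_dvd_iff] at hu
    exact hP (by exact_mod_cast hu)
  have h1 : h.natAbs = u.natAbs * D * v.natAbs ^ 2 := by
    rw [e, Int.natAbs_mul, Int.natAbs_mul, Int.natAbs_natCast, Int.natAbs_pow]
  have h2 : 1 ≤ u.natAbs := Int.natAbs_pos.2 hu0
  have h3 : 1 ≤ v.natAbs ^ 2 := Nat.one_le_pow _ _ (Int.natAbs_pos.2 hv)
  rw [h1]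
  calc D = 1 * D * 1 := by ring
    _ ≤ u.natAbs * D * v.natAbs ^ 2 := Nat.mul_le_mul (Nat.mul_le_mul h2 le_rfl) h3

theorem exc_c {F : Fam I} {P : ℕ} (hP : P ≠ 0) (X Z : ℤ) :
    {d : ℤ | ∃ (u : I → ℤ) (D : I → ℕ) (v : I → ℤ) (d₀ : ℤ), PData F P d X Z u D v d₀}.Finite := by
  refine (Set.finite_Icc (-((P * ∏ i, (hom (F.f i) (F.n i) X Z).natAbs : ℕ) : ℤ))
    ((P * ∏ i, (hom (F.f i) (F.n i) X Z).natAbs : ℕ) : ℤ)).subset ?_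
  rintro d ⟨u, D, v, d₀, h⟩
  have h1 : d.natAbs = d₀.natAbs * ∏ i, D i := by
    rw [h.dd, Int.natAbs_mul]
    congr 1
    rw [← Nat.cast_prod, Int.natAbs_natCast]
  have h2 : d₀.natAbs ≤ P := Nat.le_of_dvd (Nat.pos_of_ne_zero hP) (Int.natAbs_dvd_natAbs.2 h.d0dvd)
  have h3 : ∏ i, D i ≤ ∏ i, (hom (F.f i) (F.n i) X Z).natAbs :=
    Finset.prod_le_prod' fun i _ => exc_le hP (h.udvd i) (h.v0 i) (h.fac i)
  have h4 : d.natAbs ≤ P * ∏ i, (hom (F.f i) (F.n i) X Z).natAbs := by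
    rw [h1]
    exact Nat.mul_le_mul h2 h3
  rw [Set.mem_Icc, ← abs_le, Int.abs_eq_natAbs]
  exact_mod_cast h4

theorem exc_fin (hF : Faltings) {F : Fam I} (hA : Adm3 F) (hN : Num3 F) {P : ℕ} (hP : P ≠ 0) :
    {d : ℤ | ∃ (X Z : ℤ) (u : I → ℤ) (D : I → ℕ) (v : I → ℤ) (d₀ : ℤ),
      PData F P d X Z u D v d₀ ∧ ∃ K : Finset I, K.Nonempty ∧ ¬ N3 F u K (sm K D)}.Finite := by
  have h1 : ∀ (A : Finset I) (k : I), {x : ℤ × ℤ | (k ∉ A ∧ F.n k = 1 ∧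
      Even (∑ a ∈ A, F.n a) ∧ 6 ≤ ∑ a ∈ A, F.n a) ∧ IsCoprime x.1 x.2 ∧
      IsSquare ((∏ a ∈ A, bet F k a) * ∏ a ∈ A, hom (F.f a) (F.n a) x.1 x.2)}.Finite := by
    intro A k
    by_cases hc : k ∉ A ∧ F.n k = 1 ∧ Even (∑ a ∈ A, F.n a) ∧ 6 ≤ ∑ a ∈ A, F.n a
    · exact (exc_b hF hA A k hc.1 hc.2.1 hc.2.2.1 hc.2.2.2).subset fun x hx => hx.2
    · refine Set.finite_empty.subset fun x hx => ?_
      exact (hc hx.1).elim
  have h2 : (⋃ (A : Finset I) (k : I), {x : ℤ × ℤ | (k ∉ A ∧ F.n k = 1 ∧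
      Even (∑ a ∈ A, F.n a) ∧ 6 ≤ ∑ a ∈ A, F.n a) ∧ IsCoprime x.1 x.2 ∧
      IsSquare ((∏ a ∈ A, bet F k a) * ∏ a ∈ A, hom (F.f a) (F.n a) x.1 x.2)}).Finite :=
    Set.finite_iUnion fun A => Set.finite_iUnion fun k => h1 A k
  refine (h2.biUnion fun x _ => exc_c (F := F) hP x.1 x.2).subset ?_
  rintro d ⟨X, Z, u, D, v, d₀, hd, K, hK, hE⟩
  obtain ⟨A, k, a1, a2, a3, a4, a5⟩ := exc_a hN hd K hK (not_not.1 hE)
  refine Set.mem_biUnion (x := (X, Z)) ?_ ⟨u, D, v, d₀, hd⟩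
  rw [Set.mem_iUnion]
  refine ⟨A, ?_⟩
  rw [Set.mem_iUnion]
  exact ⟨k, ⟨a1, a2, a3, a4⟩, hd.cop, a5⟩

end Pool.Agent.QTW
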