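import Pool.Agent.QTX.Defs

/-!
# QTX-ExcA: exceptional tuples give points on hyperelliptic curves

If the small parts satisfy `Sq3` at a linear form `k`, then the products of the numbers
`u a * D a * bet F k a` over suitable sets `A` of indices are squares, so the point gives a
rational point on the hyperelliptic curve attached to `A`.
-/

set_option autoImplicit false

namespace Pool.Agent.QTW

open Finset

variable {I : Type} [Fintype I] [DecidableEq I]

omit [Fintype I] in
/-- Numbers whose pairwise products are squares: products of an even number of them are squares. -/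
private theorem sq_pairs (x : I → ℤ) : ∀ (m : ℕ) (B : Finset I), B.card = 2 * m →
    (∀ a ∈ B, ∀ b ∈ B, IsSquare (x a * x b)) → IsSquare (∏ a ∈ B, x a) := by
  intro m
  induction m with
  | zero =>
    intro B hB _
    rw [Nat.mul_zero, card_eq_zero] at hB
    rw [hB, prod_empty]
    exact IsSquare.one
  | succ m ih =>
    intro B hB hsq
    obtain ⟨a, ha⟩ : B.Nonempty := card_pos.mp (by omega)
    have h1 : (B.erase a).card = 2 * m + 1 := by rw [card_erase_of_mem ha]; omega
    obtain ⟨b, hb⟩ : (B.erase a).Nonempty := card_pos.mp (by omega)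
    have h2 : ((B.erase a).erase b).card = 2 * m := by rw [card_erase_of_mem hb]; omega
    rw [← mul_prod_erase B x ha, ← mul_prod_erase (B.erase a) x hb, ← mul_assoc]
    refine IsSquare.mul (hsq a ha b (mem_of_mem_erase hb)) (ih _ h2 fun c hc d hd => ?_)
    exact hsq c (mem_of_mem_erase (mem_of_mem_erase hc)) d (mem_of_mem_erase (mem_of_mem_erase hd))

private theorem sq_core {F : Fam I} {P : ℕ} {d X Z : ℤ} {u : I → ℤ} {D : I → ℕ}
    {v : I → ℤ} {d₀ : ℤ} (h : PData F P d X Z u D v d₀) (K A : Finset I) (k : I)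
    (hS : Sq3 F u K (sm K D) k) (hA : ∀ a ∈ A, a ∉ K) (hev : Even (∑ a ∈ A, F.n a)) :
    IsSquare ((∏ a ∈ A, bet F k a) * ∏ a ∈ A, hom (F.f a) (F.n a) X Z) := by
  obtain ⟨x, hx⟩ : ∃ x : I → ℤ, x = fun a => u a * (D a : ℤ) * bet F k a := ⟨_, rfl⟩
  have hsm : ∀ a, a ∉ K → sm K D a = D a := fun a ha => by rw [sm, if_neg ha]
  have h1 : ∀ a ∈ A, Even (F.n a) → IsSquare (x a) := by
    intro a ha he
    have := hS.1 a (hA a ha) he
    rw [hsm a (hA a ha)] at this
    rw [hx]
    exact this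
  have h2 : ∀ a ∈ A, ∀ b ∈ A, Odd (F.n a) → Odd (F.n b) → IsSquare (x a * x b) := by
    intro a ha b hb hoa hob
    have := hS.2 a b (hA a ha) (hA b hb) hoa hob
    rw [hsm a (hA a ha), hsm b (hA b hb)] at this
    rw [hx]
    exact this
  have h3 : IsSquare (∏ a ∈ A, x a) := by
    rw [← prod_filter_mul_prod_filter_not A (fun a => Odd (F.n a)) x]
    refine IsSquare.mul ?_ ?_
    · rw [even_sum_iff_even_card_odd] at hev
      obtain ⟨m, hm⟩ := hev
      refine sq_pairs x m _ (by omega) fun a ha b hb => ?_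
      rw [mem_filter] at ha hb
      exact h2 a ha.1 b hb.1 ha.2 hb.2
    · refine Finset.isSquare_prod _ fun a ha => ?_
      rw [mem_filter, Nat.not_odd_iff_even] at ha
      exact h1 a ha.1 ha.2
  have h4 : (∏ a ∈ A, bet F k a) * ∏ a ∈ A, hom (F.f a) (F.n a) X Z =
      (∏ a ∈ A, x a) * (∏ a ∈ A, v a) ^ 2 := by
    rw [← prod_mul_distrib, ← prod_pow, ← prod_mul_distrib]
    refine prod_congr rfl fun a _ => ?_
    rw [h.fac a, hx]
    ring
  rw [h4]
  exact IsSquare.mul h3 (IsSquare.sq _)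

theorem exc_a {F : Fam I} (hN : Num3 F) {P : ℕ} {d X Z : ℤ} {u : I → ℤ} {D : I → ℕ}
    {v : I → ℤ} {d₀ : ℤ} (h : PData F P d X Z u D v d₀) (K : Finset I) (hK : K.Nonempty)
    (hE : Exc3 F u K (sm K D)) :
    ∃ (A : Finset I) (k : I), k ∉ A ∧ F.n k = 1 ∧ Even (∑ a ∈ A, F.n a) ∧
      6 ≤ ∑ a ∈ A, F.n a ∧
      IsSquare ((∏ a ∈ A, bet F k a) * ∏ a ∈ A, hom (F.f a) (F.n a) X Z) := by
  obtain ⟨hlin, hcard, hSq⟩ := hE
  obtain ⟨k, hk⟩ := hK
  have hk1 := hlin k hk
  have hN8 := hN.eight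
  obtain ⟨N2, hN2⟩ := hN.even
  -- sums over the complement of `K`
  have hcomp : ∑ a ∈ univ \ K, F.n a + K.card = ∑ i, F.n i := by
    have e1 : ∑ a ∈ K, F.n a = K.card := by
      rw [sum_congr rfl hlin, sum_const, smul_eq_mul, mul_one]
    rw [← e1]
    exact sum_sdiff (subset_univ K)
  have hgen : ∀ A : Finset I, (∀ a ∈ A, a ∉ K) → Even (∑ a ∈ A, F.n a) → 6 ≤ ∑ a ∈ A, F.n a →
      ∃ (A : Finset I) (k : I), k ∉ A ∧ F.n k = 1 ∧ Even (∑ a ∈ A, F.n a) ∧
      6 ≤ ∑ a ∈ A, F.n a ∧
      IsSquare ((∏ a ∈ A, bet F k a) * ∏ a ∈ A, hom (F.f a) (F.n a) X Z) := fun A hA he h6 =>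
    ⟨A, k, fun hkA => hA k hkA hk, hk1, he, h6, sq_core h K A k (hSq k hk) hA he⟩
  rcases hcard with h1 | h2 | ⟨hJ, h4⟩
  · -- `K = {k}`
    have hKk : K = {k} := by
      obtain ⟨k', hk'⟩ := card_eq_one.mp h1
      rw [hk', mem_singleton] at hk
      rw [hk', hk]
    have hkJ : k ∈ oddF F := mem_oddF.mpr (by rw [hk1]; exact odd_one)
    have hJe : Even (oddF F).card := by
      have := hN.even
      rw [even_sum_iff_even_card_odd] at this
      exact this
    have hJ4 : 4 ≤ (oddF F).card := by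
      have h0 : 0 < (oddF F).card := card_pos.mpr ⟨k, hkJ⟩
      have hne := hN.two
      obtain ⟨m, hm⟩ := hJe
      omega
    have hJ3 : 3 ≤ ((oddF F).erase k).card := by rw [card_erase_of_mem hkJ]; omega
    obtain ⟨b, hb, hmin⟩ := exists_min_image ((oddF F).erase k) F.n (card_pos.mp (by omega))
    have hbk : b ≠ k := ne_of_mem_erase hb
    have hbo : Odd (F.n b) := mem_oddF.mp (mem_of_mem_erase hb)
    have hsum : ∑ a ∈ (univ.erase k).erase b, F.n a + F.n b + 1 = ∑ i, F.n i := by
      have e1 := sum_erase_add (univ.erase k) F.n (a := b) (mem_erase.mpr ⟨hbk, mem_univ b⟩)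
      have e2 := sum_erase_add univ F.n (a := k) (mem_univ k)
      rw [hk1] at e2
      omega
    refine hgen ((univ.erase k).erase b) (fun a ha => ?_) ?_ ?_
    · rw [hKk, mem_singleton]
      exact ne_of_mem_erase (mem_of_mem_erase ha)
    · obtain ⟨r, hr⟩ := hbo
      exact ⟨N2 - r - 1, by omega⟩
    · by_cases hb1 : F.n b = 1
      · omega
      · have hb3 : 3 ≤ F.n b := by
          obtain ⟨r, hr⟩ := hbo
          omega
        have hsub : ((oddF F).erase k).erase b ⊆ (univ.erase k).erase b :=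
          erase_subset_erase b (erase_subset_erase k (subset_univ _))
        have hc : 2 ≤ (((oddF F).erase k).erase b).card := by rw [card_erase_of_mem hb]; omega
        calc 6 ≤ (((oddF F).erase k).erase b).card * 3 := by omega
          _ = ∑ _a ∈ ((oddF F).erase k).erase b, 3 := by rw [sum_const, smul_eq_mul]
          _ ≤ ∑ a ∈ ((oddF F).erase k).erase b, F.n a :=
              sum_le_sum fun a ha => hb3.trans (hmin a (mem_of_mem_erase ha))
          _ ≤ ∑ a ∈ (univ.erase k).erase b, F.n a :=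
              sum_le_sum_of_subset hsub
  · refine hgen (univ \ K) (fun a ha => (mem_sdiff.mp ha).2) ⟨N2 - 1, by omega⟩ (by omega)
  · have h10 : 10 ≤ ∑ i, F.n i := hN.ten (by rw [← hJ]; exact h4) (fun j hj => hlin j (by rw [hJ]; exact hj))
    refine hgen (univ \ K) (fun a ha => (mem_sdiff.mp ha).2) ⟨N2 - 2, by omega⟩ (by omega)

end Pool.Agent.QTW
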