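import Pool.Agent.QTX.Div4
import Pool.Agent.QTX.Ev4
import Pool.Agent.QTX.ExcA

/-!
# QTX-Exc4: exceptional tuples belong to exceptional points
-/

set_option autoImplicit false

namespace Pool.Agent.QTW

open Finset

/-- Numbers whose pairwise products are squares: products of an even number of them are squares. -/
private theorem e4_pairs {I : Type} [DecidableEq I] (x : I → ℤ) :
    ∀ (m : ℕ) (B : Finset I), B.card = 2 * m →
    (∀ a ∈ B, ∀ b ∈ B, IsSquare (x a * x b)) → IsSquare (∏ a ∈ B, x a) := by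
  intro m
  induction m with
  | zero =>
    intro B hB _
    rw [Nat.mul_zero, card_eq_zero] at hB
    rw [hB, prod_empty]
    exact IsSquare.one
  | succ m ih =>
    intro B hB hsq
    obtain ⟨a, ha⟩ : B.Nonempty := card_pos.mp (by omega)
    have h1 : (B.erase a).card = 2 * m + 1 := by rw [card_erase_of_mem ha]; omega
    obtain ⟨b, hb⟩ : (B.erase a).Nonempty := card_pos.mp (by omega)
    have h2 : ((B.erase a).erase b).card = 2 * m := by rw [card_erase_of_mem hb]; omega
    rw [← mul_prod_erase B x ha, ← mul_prod_erase (B.erase a) x hb, ← mul_assoc]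
    refine IsSquare.mul (hsq a ha b (mem_of_mem_erase hb)) (ih _ h2 fun c hc d hd => ?_)
    exact hsq c (mem_of_mem_erase (mem_of_mem_erase hc)) d (mem_of_mem_erase (mem_of_mem_erase hd))

theorem sq_core' {I : Type} [Fintype I] [DecidableEq I] {F : Fam I} {P : ℕ} {d X Z : ℤ}
    {u : I → ℤ} {D : I → ℕ}
    {v : I → ℤ} {d₀ : ℤ} (h : PData F P d X Z u D v d₀) (K A : Finset I) (k : I)
    (hS : Sq3 F u K (sm K D) k) (hA : ∀ a ∈ A, a ∉ K) (hev : Even (∑ a ∈ A, F.n a)) :
    IsSquare ((∏ a ∈ A, bet F k a) * ∏ a ∈ A, hom (F.f a) (F.n a) X Z) := by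
  obtain ⟨x, hx⟩ : ∃ x : I → ℤ, x = fun a => u a * (D a : ℤ) * bet F k a := ⟨_, rfl⟩
  have hsm : ∀ a, a ∉ K → sm K D a = D a := fun a ha => by rw [sm, if_neg ha]
  have h1 : ∀ a ∈ A, Even (F.n a) → IsSquare (x a) := by
    intro a ha he
    have := hS.1 a (hA a ha) he
    rw [hsm a (hA a ha)] at this
    rw [hx]
    exact this
  have h2 : ∀ a ∈ A, ∀ b ∈ A, Odd (F.n a) → Odd (F.n b) → IsSquare (x a * x b) := by
    intro a ha b hb hoa hob
    have := hS.2 a b (hA a ha) (hA b hb) hoa hob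
    rw [hsm a (hA a ha), hsm b (hA b hb)] at this
    rw [hx]
    exact this
  have h3 : IsSquare (∏ a ∈ A, x a) := by
    rw [← prod_filter_mul_prod_filter_not A (fun a => Odd (F.n a)) x]
    refine IsSquare.mul ?_ ?_
    · rw [even_sum_iff_even_card_odd] at hev
      obtain ⟨m, hm⟩ := hev
      refine e4_pairs x m _ (by omega) fun a ha b hb => ?_
      rw [mem_filter] at ha hb
      exact h2 a ha.1 b hb.1 ha.2 hb.2
    · refine Finset.isSquare_prod _ fun a ha => ?_
      rw [mem_filter, Nat.not_odd_iff_even] at ha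
      exact h1 a ha.1 ha.2
  have h4 : (∏ a ∈ A, bet F k a) * ∏ a ∈ A, hom (F.f a) (F.n a) X Z =
      (∏ a ∈ A, x a) * (∏ a ∈ A, v a) ^ 2 := by
    rw [← prod_mul_distrib, ← prod_pow, ← prod_mul_distrib]
    refine prod_congr rfl fun a _ => ?_
    rw [h.fac a, hx]
    ring
  rw [h4]
  exact IsSquare.mul h3 (IsSquare.sq _)

private theorem e4_root {f : Polynomial ℤ} {r : ℕ} {g : Fin r → Polynomial ℤ} {c : ℤ}
    (h : FD f g c) (i : Fin r) (hi : (g i).natDegree = 1) :
    ((g i).map (Int.castRingHom ℚ)).eval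
      (-(((g i).coeff 0 : ℤ) : ℚ) / (((g i).coeff 1 : ℤ) : ℚ)) = 0 := by
  obtain ⟨_, h1⟩ := fd_root h i hi (-(((g i).coeff 0 : ℤ) : ℚ) / (((g i).coeff 1 : ℤ) : ℚ))
  rw [h1, neg_div, neg_add_cancel, mul_zero]

private theorem e4_sq {f : Polynomial ℤ} {r : ℕ} {g : Fin r → Polynomial ℤ} {c : ℤ}
    (_h : FD f g c) {ε : ℕ} (hε : ε ≤ 1) (hA : Adm3 (fam3 g ε)) {P : ℕ} {d : ℤ} {x : ℚ}
    {u : Fin r ⊕ Fin ε → ℤ} {D : Fin r ⊕ Fin ε → ℕ} {v : Fin r ⊕ Fin ε → ℤ} {d₀ : ℤ}
    (hp : PData (fam3 g ε) P d x.num (x.den : ℤ) u D v d₀) (K' : Finset (Fin r ⊕ Fin ε))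
    {k : Fin r ⊕ Fin ε} (hk : k ∈ K') (hk1 : (fam3 g ε).n k = 1)
    (hS : Sq3 (fam3 g ε) u K' (sm K' D) k) (A : Finset (Fin r ⊕ Fin ε))
    (hAK : ∀ a ∈ A, a ∉ K') (he : Even (∑ a ∈ A, (fam3 g ε).n a)) :
    IsSquare ((∏ a ∈ A, pval (pol4 g a) (pm g k)) * ∏ a ∈ A, (pol4 g a).eval x) := by
  have h1 := sq_core' hp K' A k hS hAK he
  obtain ⟨t, ht, h2⟩ := bet_prod hε hA k hk1 A (fun hc => hAK k hc hk) he
  obtain ⟨t', ht', h3⟩ := hom_prod4 hA A he x
  have h4 : IsSquare (((∏ a ∈ A, bet (fam3 g ε) k a : ℤ) : ℚ) *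
      ((∏ a ∈ A, hom ((fam3 g ε).f a) ((fam3 g ε).n a) x.num (x.den : ℤ) : ℤ) : ℚ)) := by
    obtain ⟨z, hz⟩ := h1
    refine ⟨(z : ℚ), ?_⟩
    rw [← Int.cast_mul, hz, Int.cast_mul]
  rw [h2, h3] at h4
  obtain ⟨z, hz⟩ := h4
  refine ⟨z / (t * t'), ?_⟩
  have h5 : t * t' ≠ 0 := mul_ne_zero ht ht'
  rw [div_mul_div_comm, ← hz, eq_div_iff (mul_ne_zero h5 h5)]
  ring

theorem exc4 {f : Polynomial ℤ} {r : ℕ} {g : Fin r → Polynomial ℤ} {c : ℤ} (h : FD f g c)
    (hA : Adm3 (fam3 g (f.natDegree % 2))) {P : ℕ} {d : ℤ} {x : ℚ}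
    {u : Fin r ⊕ Fin (f.natDegree % 2) → ℤ} {D : Fin r ⊕ Fin (f.natDegree % 2) → ℕ}
    {v : Fin r ⊕ Fin (f.natDegree % 2) → ℤ} {d₀ : ℤ}
    (hp : PData (fam3 g (f.natDegree % 2)) P d x.num (x.den : ℤ) u D v d₀)
    (K' : Finset (Fin r ⊕ Fin (f.natDegree % 2))) (hK : K'.Nonempty)
    (hE : ¬ N3 (fam3 g (f.natDegree % 2)) u K' (sm K' D)) : Excep f x := by
  have hε : f.natDegree % 2 ≤ 1 := by omega
  have hodd : f.natDegree % 2 = 1 ↔ Odd f.natDegree := Nat.odd_iff.symm
  generalize f.natDegree % 2 = ε at *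
  have hE' : Exc3 (fam3 g ε) u K' (sm K' D) := by_contra hE
  obtain ⟨hlin, hcard, hSq⟩ := hE'
  have hnr : ∀ j : Fin ε, (fam3 g ε).n (Sum.inr j) = 1 := fun j => rfl
  have hfin : ∀ j : Fin ε, Odd f.natDegree := fun j => hodd.1 (by have := j.2; omega)
  have hmem : ∀ k ∈ K', pm g k ∈ K'.image (pm g) := fun k hk => mem_image_of_mem _ hk
  refine ⟨K'.image (pm g), hK.image _, ?_, ?_, ?_⟩
  · intro a ha
    obtain ⟨k, hk, rfl⟩ := mem_image.1 ha
    rcases k with i | j
    · exact (fd_isW h _).2 ⟨i, e4_root h i (hlin _ hk)⟩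
    · exact hfin j
  · rcases hcard with h1 | h1 | ⟨h1, h4⟩
    · exact Or.inl (card_image_le.trans (by omega))
    · exact Or.inl (card_image_le.trans (by omega))
    · refine Or.inr ⟨?_, ?_, ?_⟩
      · rw [card_image_of_injOn, h4]
        intro k hk k' hk' he
        have hk1 := hlin k hk
        have hk1' := hlin k' hk'
        rcases k with i | j
        · rcases k' with i' | j'
          · by_contra hne
            have hii : i ≠ i' := fun hc => hne (by rw [hc])
            obtain ⟨s, t, hst⟩ := h.cop i i' hii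
            have r1 := e4_root h i hk1
            have r2 := e4_root h i' hk1'
            have e1 : (-(((g i).coeff 0 : ℤ) : ℚ) / (((g i).coeff 1 : ℤ) : ℚ)) =
                (-(((g i').coeff 0 : ℤ) : ℚ) / (((g i').coeff 1 : ℤ) : ℚ)) := Option.some.inj he
            rw [e1] at r1
            have r3 := congrArg (Polynomial.eval
              (-(((g i').coeff 0 : ℤ) : ℚ) / (((g i').coeff 1 : ℤ) : ℚ))) hst
            rw [Polynomial.eval_add, Polynomial.eval_mul, Polynomial.eval_mul, r1, r2,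
              Polynomial.eval_one, mul_zero, mul_zero, add_zero] at r3
            exact zero_ne_one r3
          · exact absurd he (Option.some_ne_none _)
        · rcases k' with i' | j'
          · exact absurd he.symm (Option.some_ne_none _)
          · have : j = j' := by
              apply Fin.ext
              have := j.2
              have := j'.2
              omega
            rw [this]
      · intro ho
        have he1 : 0 < ε := by
          rw [hodd.2 ho]
          exact one_pos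
        have hk : (Sum.inr ⟨0, he1⟩ : Fin r ⊕ Fin ε) ∈ K' := by
          rw [h1, mem_oddF, hnr]
          exact odd_one
        exact hmem _ hk
      · intro q hq hqo
        obtain ⟨i, w, _, hw, hd⟩ := fd_factor h hq
        have hk : (Sum.inl i : Fin r ⊕ Fin ε) ∈ K' := by
          rw [h1, mem_oddF]
          show Odd (g i).natDegree
          rw [← hd]
          exact hqo
        refine ⟨_, hmem _ hk, ?_⟩
        rw [hw, Polynomial.eval_mul]
        rw [e4_root h i (hlin _ hk), mul_zero]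
  · intro G hG hne hpar a ha
    obtain ⟨k, hk, rfl⟩ := mem_image.1 ha
    obtain ⟨A₀, c₀, hc₀, hG2⟩ := fd_dvd h hG
    have hpv : ∀ b, pval G b = c₀ * ∏ i ∈ A₀, pval ((g i).map (Int.castRingHom ℚ)) b := by
      intro b
      rw [hG2]
      exact pval_prod _ _ _ _
    have hev : G.eval x = c₀ * ∏ i ∈ A₀, ((g i).map (Int.castRingHom ℚ)).eval x := by
      rw [hG2, Polynomial.eval_mul, Polynomial.eval_C, Polynomial.eval_prod]
    have hdeg : G.natDegree = ∑ i ∈ A₀, (g i).natDegree := by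
      rw [hG2, Polynomial.natDegree_C_mul hc₀, Polynomial.natDegree_prod _ _
        fun i _ => (h.irr i).ne_zero]
      exact sum_congr rfl fun i _ =>
        Polynomial.natDegree_map_eq_of_injective Int.cast_injective _
    have hA0 : ∀ i ∈ A₀, (Sum.inl i : Fin r ⊕ Fin ε) ∉ K' := by
      intro i hi hc
      apply hne _ (hmem _ hc)
      rw [hpv]
      have e0 : pval ((g i).map (Int.castRingHom ℚ)) (pm g (Sum.inl i : Fin r ⊕ Fin ε)) = 0 :=
        e4_root h i (hlin _ hc)
      rw [prod_eq_zero hi e0, mul_zero]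
    have hfinal : ∀ A : Finset (Fin r ⊕ Fin ε), (∀ a ∈ A, a ∉ K') →
        Even (∑ a ∈ A, (fam3 g ε).n a) →
        (∏ a ∈ A, pval (pol4 g a) (pm g k) =
          ∏ i ∈ A₀, pval ((g i).map (Int.castRingHom ℚ)) (pm g k)) →
        (∏ a ∈ A, (pol4 g a).eval x = ∏ i ∈ A₀, ((g i).map (Int.castRingHom ℚ)).eval x) →
        IsSquare (pval G (pm g k) * G.eval x) := by
      intro A hAK he e1 e2
      have h5 := e4_sq h hε hA hp K' hk (hlin k hk) (hSq k hk) A hAK he
      rw [e1, e2] at h5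
      obtain ⟨z, hz⟩ := h5
      refine ⟨c₀ * z, ?_⟩
      rw [hpv, hev]
      linear_combination c₀ ^ 2 * hz
    have hmapK : ∀ a ∈ A₀.map (Function.Embedding.inl : Fin r ↪ Fin r ⊕ Fin ε), a ∉ K' := by
      intro a ha'
      obtain ⟨i, hi, rfl⟩ := mem_map.1 ha'
      exact hA0 i hi
    by_cases hGe : Even G.natDegree
    · refine hfinal (A₀.map Function.Embedding.inl) hmapK ?_ ?_ ?_
      · rw [sum_map, ← show G.natDegree = ∑ i ∈ A₀, (fam3 g ε).n (Function.Embedding.inl i) from hdeg]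
        exact hGe
      · rw [prod_map]
        rfl
      · rw [prod_map]
        rfl
    · obtain ⟨ho, hnone⟩ := hpar.resolve_left hGe
      have he1 : 0 < ε := by
        rw [hodd.2 ho]
        exact one_pos
      have hnot : (Sum.inr ⟨0, he1⟩ : Fin r ⊕ Fin ε) ∉
          A₀.map (Function.Embedding.inl : Fin r ↪ Fin r ⊕ Fin ε) := by
        intro hc
        obtain ⟨i, _, hi⟩ := mem_map.1 hc
        exact absurd hi (by simp)
      refine hfinal (insert (Sum.inr ⟨0, he1⟩) (A₀.map Function.Embedding.inl)) ?_ ?_ ?_ ?_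
      · intro a ha'
        rcases mem_insert.1 ha' with rfl | h6
        · intro hc
          exact hnone (hmem _ hc)
        · exact hmapK a h6
      · rw [sum_insert hnot, sum_map,
          ← show G.natDegree = ∑ i ∈ A₀, (fam3 g ε).n (Function.Embedding.inl i) from hdeg, hnr,
          add_comm]
        exact (Nat.not_even_iff_odd.1 hGe).add_one
      · rw [prod_insert hnot, prod_map]
        have e0 : pval (pol4 g (Sum.inr ⟨0, he1⟩ : Fin r ⊕ Fin ε)) (pm g k) = 1 := by
          show pval 1 (pm g k) = 1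
          rcases pm g k with _ | b
          · exact Polynomial.leadingCoeff_one
          · exact Polynomial.eval_one
        rw [e0, one_mul]
        rfl
      · rw [prod_insert hnot, prod_map]
        have e0 : (pol4 g (Sum.inr ⟨0, he1⟩ : Fin r ⊕ Fin ε)).eval x = 1 := Polynomial.eval_one
        rw [e0, one_mul]
        rfl

end Pool.Agent.QTW
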