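import Mathlib

/-!
# QTX-Fct3: factorisation over the integers, with primitive factors

PROOF. As `fct` in `QTW/Fct.lean` (adapt it; there the `g i` are irreducible factors in `ℤ[X]` of the primitive part of `f`, hence primitive). New: `(g i).IsPrimitive`, and every normalized factor of `f.map` over `ℚ` has the degree of some `g i`
(`normalizedFactors (f.map ..)` is the multiset of the `normalize ((g i).map ..)`).
-/

set_option autoImplicit false

namespace Pool.Agent.QTW

open Finset

private theorem fct_primitive (P : Polynomial ℤ) (hP : P.IsPrimitive) :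
    ∃ (r : ℕ) (g : Fin r → Polynomial ℤ) (u : ℤ), u ≠ 0 ∧ P = Polynomial.C u * ∏ i, g i ∧
      (∀ i, (g i).IsPrimitive) ∧ (∀ i, Irreducible ((g i).map (Int.castRingHom ℚ))) := by
  have hP0 : P ≠ 0 := hP.ne_zero
  let s := UniqueFactorizationMonoid.factors P
  have hs : Associated s.prod P := UniqueFactorizationMonoid.factors_prod hP0
  have hirr : ∀ q ∈ s, Irreducible q := fun q hq => UniqueFactorizationMonoid.irreducible_of_factor q hq
  have hdvd : ∀ q ∈ s, q ∣ P := fun q hq => (Multiset.dvd_prod hq).trans hs.dvd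
  obtain ⟨w, hw⟩ := hs
  obtain ⟨u, hu, huw⟩ := Polynomial.isUnit_iff.1 w.isUnit
  have hprim : ∀ i : Fin s.toList.length, (s.toList.get i).IsPrimitive := fun i =>
    Polynomial.isPrimitive_of_dvd hP (hdvd _ (Multiset.mem_toList.1 (List.get_mem _ _)))
  refine ⟨s.toList.length, fun i => s.toList.get i, u, hu.ne_zero, ?_, hprim, fun i => ?_⟩
  · have h1 : ∏ i : Fin s.toList.length, s.toList.get i = s.prod := by
      rw [← List.prod_ofFn, List.ofFn_get]
      exact Multiset.prod_toList s
    rw [h1, huw, mul_comm]
    exact hw.symm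
  · have hi : s.toList.get i ∈ s := Multiset.mem_toList.1 (List.get_mem _ _)
    exact (Polynomial.IsPrimitive.Int.irreducible_iff_irreducible_map_cast (hprim i)).1 (hirr _ hi)

theorem fct3 (f : Polynomial ℤ) (hf : (f.map (Int.castRingHom ℚ)).Separable) :
    ∃ (r : ℕ) (g : Fin r → Polynomial ℤ) (c : ℤ), c ≠ 0 ∧ f = Polynomial.C c * ∏ i, g i ∧
      (∀ i, (g i).IsPrimitive) ∧
      (∀ i, Irreducible ((g i).map (Int.castRingHom ℚ))) ∧
      (∀ i j, i ≠ j →
        IsCoprime ((g i).map (Int.castRingHom ℚ)) ((g j).map (Int.castRingHom ℚ))) ∧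
      (univ.filter (fun i => Odd (g i).natDegree)).card =
        Multiset.card ((UniqueFactorizationMonoid.normalizedFactors
          (f.map (Int.castRingHom ℚ))).filter (fun q => Odd q.natDegree)) ∧
      (∀ q ∈ UniqueFactorizationMonoid.normalizedFactors (f.map (Int.castRingHom ℚ)),
        ∃ i, q.natDegree = (g i).natDegree) := by
  classical
  have hf0 : f ≠ 0 := by
    rintro rfl
    rw [Polynomial.map_zero] at hf
    exact hf.ne_zero rfl
  obtain ⟨r, g, u, hu, hP, hprim, hirr⟩ := fct_primitive f.primPart f.isPrimitive_primPart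
  have hc0 : f.content ≠ 0 := fun h => hf0 (Polynomial.content_eq_zero_iff.1 h)
  have hfac : f = Polynomial.C (f.content * u) * ∏ i, g i := by
    rw [Polynomial.C_mul, mul_assoc, ← hP]
    exact f.eq_C_content_mul_primPart
  have hc : f.content * u ≠ 0 := mul_ne_zero hc0 hu
  have hmap : f.map (Int.castRingHom ℚ) =
      Polynomial.C ((f.content * u : ℤ) : ℚ) * ∏ i, (g i).map (Int.castRingHom ℚ) := by
    conv_lhs => rw [hfac]
    rw [Polynomial.map_mul, Polynomial.map_C, Polynomial.map_prod]
    rfl
  have hcu : IsUnit (Polynomial.C ((f.content * u : ℤ) : ℚ)) :=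
    Polynomial.isUnit_C.2 (isUnit_iff_ne_zero.2 (by exact_mod_cast hc))
  have h1 : UniqueFactorizationMonoid.normalizedFactors (f.map (Int.castRingHom ℚ)) =
      (univ : Finset (Fin r)).val.map fun i => normalize ((g i).map (Int.castRingHom ℚ)) := by
    have h2 : Associated (f.map (Int.castRingHom ℚ)) (∏ i, (g i).map (Int.castRingHom ℚ)) := by
      rw [hmap]
      exact (associated_unit_mul_left _ _ hcu)
    rw [h2.normalizedFactors_eq]
    have h3 := UniqueFactorizationMonoid.normalizedFactors_prod_eq
      ((univ : Finset (Fin r)).val.map fun i => (g i).map (Int.castRingHom ℚ)) (by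
        intro a ha
        obtain ⟨i, _, rfl⟩ := Multiset.mem_map.1 ha
        exact hirr i)
    rw [Multiset.map_map] at h3
    exact h3
  have hdeg : ∀ i, (normalize ((g i).map (Int.castRingHom ℚ))).natDegree = (g i).natDegree := by
    intro i
    rw [Polynomial.natDegree_eq_natDegree (Polynomial.degree_normalize),
      Polynomial.natDegree_map_eq_of_injective Int.cast_injective]
  refine ⟨r, g, f.content * u, hc, hfac, hprim, hirr, fun i j hij => ?_, ?_, ?_⟩
  · rw [(hirr i).coprime_iff_not_dvd]
    intro hd
    have h1 : (g i).map (Int.castRingHom ℚ) * (g i).map (Int.castRingHom ℚ) ∣ f.map (Int.castRingHom ℚ) := by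
      rw [hmap]
      refine Dvd.dvd.mul_left ?_ _
      rw [← Finset.mul_prod_erase univ (fun i => (g i).map (Int.castRingHom ℚ)) (Finset.mem_univ i)]
      refine mul_dvd_mul_left _ (hd.trans ?_)
      exact Finset.dvd_prod_of_mem (fun i => (g i).map (Int.castRingHom ℚ))
        (Finset.mem_erase.2 ⟨hij.symm, Finset.mem_univ j⟩)
    exact (hirr i).not_isUnit (hf.squarefree _ h1)
  · rw [h1, Multiset.filter_map, Multiset.card_map]
    have h4 : (univ : Finset (Fin r)).filter (fun i => Odd (g i).natDegree) =
        (univ : Finset (Fin r)).filter ((fun q : Polynomial ℚ => Odd q.natDegree) ∘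
          fun i => normalize ((g i).map (Int.castRingHom ℚ))) := by
      refine Finset.filter_congr fun i _ => ?_
      show Odd (g i).natDegree ↔ Odd (normalize ((g i).map (Int.castRingHom ℚ))).natDegree
      rw [hdeg i]
    rw [h4]
    rfl
  · intro q hq
    rw [h1] at hq
    obtain ⟨i, -, rfl⟩ := Multiset.mem_map.1 hq
    exact ⟨i, hdeg i⟩

end Pool.Agent.QTW
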