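import Pool.Agent.QTX.Defs4

/-!
# QTX-Fin4: finitely many exceptional points contribute finitely many twists
-/

set_option autoImplicit false

namespace Pool.Agent.QTW

open Finset

/-- the square is an integer -/
private theorem fin4_sq {d H : ℤ} (hd : Squarefree d) {w : ℚ} (h : (d : ℚ) * w ^ 2 = H) :
    d ∣ H := by
  have h1 : (d : ℚ) * (w.num : ℚ) ^ 2 = (H : ℚ) * ((w.den : ℤ) : ℚ) ^ 2 := by
    have h2 : (w.den : ℚ) ≠ 0 := Nat.cast_ne_zero.2 w.den_nz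
    have h3 : w * (w.den : ℚ) = w.num := Rat.mul_den_eq_num w
    rw [← h3, ← h]
    push_cast
    ring
  have h2 : d * w.num ^ 2 = H * (w.den : ℤ) ^ 2 := by exact_mod_cast h1
  have hco : IsCoprime ((w.den : ℤ)) (w.num) := by
    rw [Int.isCoprime_iff_gcd_eq_one, Int.gcd_comm]
    exact w.reduced
  have h3 : (w.den : ℤ) * (w.den : ℤ) ∣ d := by
    have h4 : IsCoprime ((w.den : ℤ) ^ 2) (w.num ^ 2) := hco.pow
    rw [← sq]
    exact h4.dvd_of_dvd_mul_right ⟨H, by rw [h2]; ring⟩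
  have h4 : IsUnit (w.den : ℤ) := hd _ h3
  have h5 : w.den = 1 := by
    have := Int.isUnit_iff_natAbs_eq.1 h4
    simpa using this
  rw [h5] at h2
  refine ⟨w.num ^ 2, ?_⟩
  rw [h2]
  norm_num

theorem fin4_one (f : Polynomial ℤ) (x : ℚ) :
    {d : ℤ | Squarefree d ∧ ∃ y : ℚ, y ≠ 0 ∧
      (d : ℚ) * y ^ 2 = (f.map (Int.castRingHom ℚ)).eval x}.Finite := by
  obtain ⟨q, hq⟩ : ∃ q : ℚ, q = (f.map (Int.castRingHom ℚ)).eval x := ⟨_, rfl⟩
  rw [← hq]
  by_cases h0 : q = 0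
  · refine Set.finite_empty.subset ?_
    rintro d ⟨hd, y, hy, h⟩
    rw [h0] at h
    have hd0 : (d : ℚ) ≠ 0 := Int.cast_ne_zero.2 hd.ne_zero
    exact absurd h (mul_ne_zero hd0 (pow_ne_zero 2 hy))
  · have hH0 : q.num * (q.den : ℤ) ≠ 0 :=
      mul_ne_zero (Rat.num_ne_zero.2 h0) (by exact_mod_cast q.den_nz)
    refine (Set.finite_Icc (-|q.num * (q.den : ℤ)|) (|q.num * (q.den : ℤ)|)).subset ?_
    rintro d ⟨hd, y, hy, h⟩
    have h1 : (d : ℚ) * (y * (q.den : ℚ)) ^ 2 = ((q.num * (q.den : ℤ) : ℤ) : ℚ) := by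
      have h3 : q * (q.den : ℚ) = q.num := Rat.mul_den_eq_num q
      push_cast
      rw [← h3, ← h]
      ring
    have h2 := fin4_sq hd h1
    have h3 := Int.le_of_dvd (abs_pos.2 hH0) ((dvd_abs d _).2 h2)
    have h4 := Int.le_of_dvd (abs_pos.2 hH0) ((dvd_abs (-d) _).2 ((neg_dvd).2 h2))
    rw [Set.mem_Icc]
    constructor
    · linarith
    · exact h3

theorem fin4 {f : Polynomial ℤ} {E : ℚ → Prop} (hE : {x : ℚ | E x}.Finite) {δ C : ℝ}
    (hδ : 0 < δ) (hC : 0 < C)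
    (h : ∀ B : ℕ, 3 ≤ B → (NfE f E B : ℝ) ≤ C * B / Real.log B ^ δ) :
    ∃ δ C : ℝ, 0 < δ ∧ 0 < C ∧ ∀ B : ℕ, 3 ≤ B → (Nf f B : ℝ) ≤ C * B / Real.log B ^ δ := by
  classical
  obtain ⟨W, hW⟩ : ∃ W : Finset ℤ, W = hE.toFinset.biUnion fun x => (fin4_one f x).toFinset :=
    ⟨_, rfl⟩
  obtain ⟨δ', hδ'⟩ : ∃ δ' : ℝ, δ' = min δ 1 := ⟨_, rfl⟩
  have hδ'0 : 0 < δ' := by rw [hδ']; exact lt_min hδ one_pos
  refine ⟨δ', C + W.card, hδ'0, by positivity, fun B hB => ?_⟩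
  have hlog : 1 ≤ Real.log B := by
    rw [Real.le_log_iff_exp_le (by positivity)]
    have h1 := Real.exp_one_lt_d9
    have h2 : (3 : ℝ) ≤ B := by exact_mod_cast hB
    linarith
  have hfin : ∀ p : ℤ → Prop, {d : ℤ | |d| < (B : ℤ) ∧ p d}.Finite := by
    intro p
    refine (Set.finite_Icc (-(B : ℤ)) B).subset ?_
    rintro d ⟨hd, _⟩
    rw [abs_lt] at hd
    exact Set.mem_Icc.2 ⟨hd.1.le, hd.2.le⟩
  have h1 : Nf f B ≤ NfE f E B + W.card := by
    unfold Nf NfE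
    rw [← Set.ncard_coe_finset W]
    refine le_trans (Set.ncard_le_ncard ?_ ((hfin _).union (Finset.finite_toSet W)))
      (Set.ncard_union_le _ _)
    rintro d ⟨hd1, hd2, x, y, hy, hxy⟩
    by_cases hx : E x
    · right
      rw [mem_coe, hW, mem_biUnion]
      exact ⟨x, hE.mem_toFinset.2 hx, (fin4_one f x).mem_toFinset.2 ⟨hd2, y, hy, hxy⟩⟩
    · left
      exact ⟨hd1, hd2, x, y, hy, hxy, hx⟩
  have hX1 : 1 ≤ (B : ℝ) / Real.log B ^ δ' := by
    rw [one_le_div (Real.rpow_pos_of_pos (by linarith) _)]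
    have h1 : Real.log B ^ δ' ≤ Real.log B ^ (1 : ℝ) :=
      Real.rpow_le_rpow_of_exponent_le hlog (by rw [hδ']; exact min_le_right _ _)
    rw [Real.rpow_one] at h1
    exact h1.trans (Real.log_le_self (Nat.cast_nonneg _))
  have h2 : (B : ℝ) / Real.log B ^ δ ≤ (B : ℝ) / Real.log B ^ δ' := by
    refine div_le_div_of_nonneg_left (Nat.cast_nonneg _) (Real.rpow_pos_of_pos (by linarith) _)
      (Real.rpow_le_rpow_of_exponent_le hlog (by rw [hδ']; exact min_le_left _ _))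
  have h3 : (Nf f B : ℝ) ≤ (NfE f E B : ℝ) + W.card := by exact_mod_cast h1
  have h4 := h B hB
  have hW0 : (0 : ℝ) ≤ W.card := Nat.cast_nonneg _
  calc (Nf f B : ℝ) ≤ (NfE f E B : ℝ) + W.card := h3
    _ ≤ C * ((B : ℝ) / Real.log B ^ δ) + W.card := by
        rw [mul_div_assoc] at h4
        linarith
    _ ≤ C * ((B : ℝ) / Real.log B ^ δ') + W.card * ((B : ℝ) / Real.log B ^ δ') := by
        have := mul_le_mul_of_nonneg_left h2 hC.le
        nlinarith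
    _ = (C + W.card) * B / Real.log B ^ δ' := by ring

end Pool.Agent.QTW
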