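import Pool.Agent.QTX.SgLin3
import Pool.Agent.QTW.CSum

/-!
# QTX-LinAv3: means for the linear forms

PROOF. `card sg ≤ tt F K` (`card_sg_lin3`), `tt F K` is `1` or `2`. If `Sq3 F u K s k`: `∑_{p ≤ x} tt / p ≤ tt (log log x + C)` (Mertens, `MEN.mert_sum0`, see `QTW/LinAv.lean` for how this was done). If not,
there is by the definition of `Sq3` an integer `a`, not a square, `a = u_l s_l β_kl` (`l ∉ K`) or `a = (u_l s_l β_kl)(u_m s_m β_km)` with `l, m ∉ K` and `l ≠ m` (for `l = m` the product is a square), with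
`jacobiSym a p = 1` whenever `sg .. p` is nonempty (`sg_lin3`); so `card sg ≤ tt * (if jacobiSym a p = 1 then 1 else 0)` and `ind` applies. All `s j ≥ 1`, so `|a| ≤ U ∏ s j` with a constant `U` (`U = ∏_j (1 + |u j|) * ∏_{k,l} (1 + |β_kl|)` or its square), and
`log log (|a| + 3) ≤ log log (U ∏ s + 3) ≤ log log (∏ s + 3) + C_U`. The file `QTW/LinAv.lean` contains the proof of the special case: adapt it.
-/

set_option autoImplicit false

namespace Pool.Agent.QTW

open Finset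

variable {I : Type} [Fintype I] [DecidableEq I]

private theorem prod_ge_one {J : Type} {S : Finset J} {f : J → ℝ}
    (hf : ∀ i, 1 ≤ f i) : 1 ≤ ∏ j ∈ S, f j := by
  rw [← Finset.prod_const_one (s := S)]
  exact Finset.prod_le_prod (fun _ _ => zero_le_one) fun j _ => hf j

private theorem le_prod_one {J : Type} [Fintype J] [DecidableEq J] {f : J → ℝ}
    (hf : ∀ i, 1 ≤ f i) (i : J) : f i ≤ ∏ j, f j := by
  rw [← Finset.mul_prod_erase univ f (mem_univ i)]
  have h1 : 1 ≤ ∏ j ∈ univ.erase i, f j := prod_ge_one hf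
  have h2 := hf i
  nlinarith

private theorem le_prod_two {J : Type} [Fintype J] [DecidableEq J] {f : J → ℝ}
    (hf : ∀ i, 1 ≤ f i) {i j : J} (hij : i ≠ j) : f i * f j ≤ ∏ j, f j := by
  rw [← Finset.mul_prod_erase univ f (mem_univ i),
    ← Finset.mul_prod_erase (univ.erase i) f (mem_erase.2 ⟨hij.symm, mem_univ j⟩)]
  have h1 : 1 ≤ ∏ l ∈ (univ.erase i).erase j, f l := prod_ge_one hf
  have h2 := hf i
  have h3 := hf j
  have h4 : 1 ≤ f i * f j := by nlinarith
  rw [← mul_assoc]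
  nlinarith

private theorem loglog_le {U S a : ℝ} (hU : 1 ≤ U) (hS : 1 ≤ S) (ha0 : 0 ≤ a)
    (ha : a ≤ 2 * U * S) :
    Real.log (Real.log (a + 3)) ≤
      Real.log (1 + Real.log (2 * U + 1)) + Real.log (Real.log (S + 3)) := by
  have e1 : Real.exp 1 ≤ 3 := by linarith [Real.exp_one_lt_d9]
  have h3 : (1 : ℝ) ≤ Real.log (S + 3) := by
    rw [Real.le_log_iff_exp_le (by linarith)]
    linarith
  have h4 : (1 : ℝ) ≤ Real.log (a + 3) := by
    rw [Real.le_log_iff_exp_le (by linarith)]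
    linarith
  have h5 : 0 ≤ Real.log (2 * U + 1) := Real.log_nonneg (by linarith)
  have h6 : Real.log (a + 3) ≤ (1 + Real.log (2 * U + 1)) * Real.log (S + 3) := by
    have h7 : a + 3 ≤ (2 * U + 1) * (S + 3) := by nlinarith
    have h8 := Real.log_le_log (by linarith) h7
    rw [Real.log_mul (by linarith) (by linarith)] at h8
    nlinarith
  have h9 := Real.log_le_log (by linarith) h6
  rw [Real.log_mul (by linarith) (by linarith)] at h9
  exact h9

open Classical in
theorem lin_av3 {F : Fam I} {c : ℤ} {P : ℕ} (hP : Bad F c P) (hA : Adm3 F) (u : I → ℤ) :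
    ∃ C : ℝ, 0 ≤ C ∧ ∀ (K : Finset I) (s : I → ℕ), Sml P K s →
      ∀ (k : I) (hk : k ∈ K), F.n k = 1 → ∀ x : ℕ, 3 ≤ x →
      ∑ p ∈ pri x, ((sg F u P K s ⟨k, hk⟩ p).card : ℝ) / p ≤
        tt F K * (if Sq3 F u K s k then 1 else 1 / 2) *
          Real.log (Real.log x) + C * (1 + Real.log (Real.log ((∏ j, s j : ℕ) + 3))) := by
  obtain ⟨C1, hC1, hm⟩ := MEN.mert_sum0
  obtain ⟨C2, hC2, hind⟩ := ind
  obtain ⟨A, hA0⟩ : ∃ A : ℝ, A = ∏ i, (1 + |(u i : ℝ)|) := ⟨_, rfl⟩
  obtain ⟨W, hW0⟩ : ∃ W : ℝ, W = ∏ q : I × I, (1 + |((bet F q.1 q.2 : ℤ) : ℝ)|) := ⟨_, rfl⟩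
  have hu1 : ∀ i, 1 ≤ 1 + |(u i : ℝ)| := fun i => by linarith [abs_nonneg (u i : ℝ)]
  have hb1 : ∀ q : I × I, 1 ≤ 1 + |((bet F q.1 q.2 : ℤ) : ℝ)| :=
    fun q => by linarith [abs_nonneg ((bet F q.1 q.2 : ℤ) : ℝ)]
  have hA1 : 1 ≤ A := by
    rw [hA0]
    exact prod_ge_one hu1
  have hW1 : 1 ≤ W := by
    rw [hW0]
    exact prod_ge_one hb1
  have huA : ∀ i, |(u i : ℝ)| ≤ A := by
    intro i
    have h := le_prod_one hu1 i
    rw [hA0]
    linarith
  have hbW : ∀ k l, |((bet F k l : ℤ) : ℝ)| ≤ W := by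
    intro k l
    have h := le_prod_one hb1 (k, l)
    rw [hW0]
    have h2 : (1 + |((bet F (k, l).1 (k, l).2 : ℤ) : ℝ)|) = 1 + |((bet F k l : ℤ) : ℝ)| := rfl
    rw [h2] at h
    linarith
  obtain ⟨U, hU⟩ : ∃ U : ℝ, U = A * W * (A * W) := ⟨_, rfl⟩
  have hAW : 1 ≤ A * W := by nlinarith
  have hU1 : 1 ≤ U := by
    rw [hU]
    nlinarith
  have hAWU : A * W ≤ U := by
    rw [hU]
    nlinarith
  have hCU : 0 ≤ Real.log (1 + Real.log (2 * U + 1)) :=
    Real.log_nonneg (by linarith [Real.log_nonneg (by linarith : (1 : ℝ) ≤ 2 * U + 1)])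
  refine ⟨2 * C1 + 2 * C2 + 2 * Real.log (1 + Real.log (2 * U + 1)) + 2, by linarith,
    fun K s hs k hk hn1 x hx => ?_⟩
  set S : ℝ := ((∏ j, s j : ℕ) : ℝ) with hS
  have hSp : S = ∏ j, (s j : ℝ) := by
    rw [hS]
    push_cast
    rfl
  have hs1 : ∀ j, 1 ≤ (s j : ℝ) := by
    intro j
    exact_mod_cast Nat.one_le_iff_ne_zero.2 (hs.1 j).1.ne_zero
  have hS1 : 1 ≤ S := by
    rw [hSp]
    exact prod_ge_one hs1
  set M : ℝ := Real.log (Real.log (S + 3)) with hM
  have e1 : Real.exp 1 ≤ 3 := by linarith [Real.exp_one_lt_d9]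
  have hM0 : 0 ≤ M := by
    apply Real.log_nonneg
    rw [Real.le_log_iff_exp_le (by linarith)]
    linarith
  obtain ⟨t, ht⟩ : ∃ t : ℝ, t = tt F K := ⟨_, rfl⟩
  have ht1 : 1 ≤ t := by
    rw [ht, tt]
    split_ifs <;> norm_num
  have ht2 : t ≤ 2 := by
    rw [ht, tt]
    split_ifs <;> norm_num
  have hcard : ∀ p ∈ pri x, ((sg F u P K s ⟨k, hk⟩ p).card : ℝ) ≤ t := by
    intro p hp
    rw [ht]
    exact card_sg_lin3 hP hA u K s k hk hn1 (mem_pri.1 hp).2
  rw [← ht]
  by_cases hsq : Sq3 F u K s k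
  · rw [if_pos hsq]
    have h1 : ∑ p ∈ pri x, ((sg F u P K s ⟨k, hk⟩ p).card : ℝ) / p ≤
        ∑ p ∈ pri x, t * (1 / (p : ℝ)) := by
      refine Finset.sum_le_sum fun p hp => ?_
      rw [mul_one_div]
      exact div_le_div_of_nonneg_right (hcard p hp) (Nat.cast_nonneg p)
    rw [← Finset.mul_sum] at h1
    have h2 := (abs_le.1 (hm x (by omega))).2
    have h3 : ∑ p ∈ pri x, 1 / (p : ℝ) ≤ Real.log (Real.log x) + C1 := by
      have h4 : ∑ p ∈ pri x, 1 / (p : ℝ) - Real.log (Real.log x) ≤ C1 := h2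
      linarith
    have h4 : t * ∑ p ∈ pri x, 1 / (p : ℝ) ≤ t * (Real.log (Real.log x) + C1) :=
      mul_le_mul_of_nonneg_left h3 (by linarith)
    nlinarith
  · rw [if_neg hsq]
    obtain ⟨a, ha1, ha2, ha3⟩ : ∃ a : ℤ, ¬ IsSquare a ∧ |(a : ℝ)| ≤ 2 * U * S ∧
        ∀ p ∈ pri x, (sg F u P K s ⟨k, hk⟩ p).Nonempty → jacobiSym a p = 1 := by
      unfold Sq3 at hsq
      rw [not_and_or] at hsq
      rcases hsq with hsq | hsq
      · push Not at hsq
        obtain ⟨l, hlK, hle, hls⟩ := hsq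
        refine ⟨_, hls, ?_, fun p hp hne =>
          (sg_lin3 hP hA u K s k hk hn1 (mem_pri.1 hp).2 hne).1 l hlK hle⟩
        push_cast
        rw [abs_mul, abs_mul, Nat.abs_cast]
        have h1 := huA l
        have h2 := le_prod_one hs1 l
        have h3 := hbW k l
        rw [← hSp] at h2
        calc |(u l : ℝ)| * (s l : ℝ) * |((bet F k l : ℤ) : ℝ)|
            ≤ A * S * W := by
              apply mul_le_mul (mul_le_mul h1 h2 (Nat.cast_nonneg _) (by linarith)) h3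
                (abs_nonneg _) (by positivity)
          _ = (A * W) * S := by ring
          _ ≤ (2 * U) * S := mul_le_mul_of_nonneg_right (by linarith) (by linarith)
      · push Not at hsq
        obtain ⟨l, m, hlK, hmK, hlo, hmo, hlms⟩ := hsq
        have hlm : l ≠ m := by
          rintro rfl
          exact hlms ⟨_, rfl⟩
        refine ⟨_, hlms, ?_, fun p hp hne =>
          (sg_lin3 hP hA u K s k hk hn1 (mem_pri.1 hp).2 hne).2 l m hlK hmK hlo hmo⟩
        push_cast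
        rw [abs_mul, abs_mul, abs_mul, abs_mul, abs_mul, Nat.abs_cast, Nat.abs_cast]
        have h1 : |(u l : ℝ)| * |(u m : ℝ)| ≤ A * A :=
          mul_le_mul (huA l) (huA m) (abs_nonneg _) (by linarith)
        have h2 := le_prod_two hs1 hlm
        have h3 : |((bet F k l : ℤ) : ℝ)| * |((bet F k m : ℤ) : ℝ)| ≤ W * W :=
          mul_le_mul (hbW k l) (hbW k m) (abs_nonneg _) (by linarith)
        rw [← hSp] at h2
        calc |(u l : ℝ)| * (s l : ℝ) * |((bet F k l : ℤ) : ℝ)| *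
              (|(u m : ℝ)| * (s m : ℝ) * |((bet F k m : ℤ) : ℝ)|)
            = (|(u l : ℝ)| * |(u m : ℝ)|) * ((s l : ℝ) * (s m : ℝ)) *
              (|((bet F k l : ℤ) : ℝ)| * |((bet F k m : ℤ) : ℝ)|) := by ring
          _ ≤ (A * A) * S * (W * W) := by
              apply mul_le_mul (mul_le_mul h1 h2 (by positivity) (by positivity)) h3
                (by positivity) (by positivity)
          _ = U * S := by rw [hU]; ring
          _ ≤ (2 * U) * S := mul_le_mul_of_nonneg_right (by linarith) (by linarith)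
    have h1 : ∑ p ∈ pri x, ((sg F u P K s ⟨k, hk⟩ p).card : ℝ) / p ≤
        ∑ p ∈ pri x, t * ((if jacobiSym a p = 1 then (1 : ℝ) else 0) / p) := by
      refine Finset.sum_le_sum fun p hp => ?_
      rw [← mul_div_assoc]
      refine div_le_div_of_nonneg_right ?_ (Nat.cast_nonneg p)
      by_cases hj : jacobiSym a p = 1
      · rw [if_pos hj, mul_one]
        exact hcard p hp
      · rw [if_neg hj, mul_zero]
        have h2 : sg F u P K s ⟨k, hk⟩ p = ∅ := by
          rw [← Finset.not_nonempty_iff_eq_empty]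
          exact fun h3 => hj (ha3 p hp h3)
        rw [h2, Finset.card_empty, Nat.cast_zero]
    rw [← Finset.mul_sum] at h1
    have h2 := hind a ha1 x hx
    have h3 := loglog_le hU1 hS1 (abs_nonneg (a : ℝ)) ha2
    have h4 : t * ∑ p ∈ pri x, (if jacobiSym a p = 1 then (1 : ℝ) else 0) / p ≤
        t * ((1 / 2 : ℝ) * Real.log (Real.log x) +
          (Real.log (1 + Real.log (2 * U + 1)) + M) + C2) :=
      mul_le_mul_of_nonneg_left (by linarith) (by linarith)
    nlinarith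

end Pool.Agent.QTW
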