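import Pool.Agent.QTW.Pt

/-!
# QTX-NfLe3: `N_f(B)` is bounded by the numbers of tuples, with finitely many exceptions

PROOF. As `nf_le` in `QTW/NfLe.lean` (adapt it): the `d` in the finite exceptional set are counted separately (at most a constant number `E`, and `E ≤ E' * B / (log B)^δ` for `B ≥ 3`, because `B / (log B)^δ ≥ c > 0`; choose `δ ≤ 1`, say), all others have `N u K (sm K D)` for the data of `pt`.
-/

set_option autoImplicit false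

namespace Pool.Agent.QTW

open Finset

variable {I : Type} [Fintype I] [DecidableEq I]

/-- the divisors of `P` in `ℤ` -/
private noncomputable def NfLe3_dv (P : ℕ) : Finset ℤ := by
  classical exact (Finset.Icc (-(P : ℤ)) P).filter (· ∣ (P : ℤ))

private theorem NfLe3_mem_dv {P : ℕ} (hP : 1 ≤ P) {z : ℤ} : z ∈ NfLe3_dv P ↔ z ∣ (P : ℤ) := by
  unfold NfLe3_dv
  rw [mem_filter, mem_Icc, and_iff_right_iff_imp]
  intro h
  have h1 : z.natAbs ≤ P := Nat.le_of_dvd hP (Int.natCast_dvd_natCast.1 (by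
    rwa [Int.natAbs_dvd]))
  omega

theorem nf_le3 {f : Polynomial ℤ} {F : Fam I} {c : ℤ} {P : ℕ} (S : Setup f F c) (hP : Bad F c P)
    (N : (I → ℤ) → Finset I → (I → ℕ) → Prop)
    (hN : {d : ℤ | ∃ (X Z : ℤ) (u : I → ℤ) (D : I → ℕ) (v : I → ℤ) (d₀ : ℤ),
      PData F P d X Z u D v d₀ ∧ ∃ K : Finset I, K.Nonempty ∧ ¬ N u K (sm K D)}.Finite)
    (hct : ∀ u : I → ℤ, (∀ i, u i ∣ (P : ℤ)) → ∃ δ C : ℝ, 0 < δ ∧ 0 < C ∧ ∀ Y : ℕ, 3 ≤ Y →
      ((GT F u P (N u) Y).card : ℝ) ≤ C * Y / Real.log Y ^ δ) :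
    ∃ δ C : ℝ, 0 < δ ∧ 0 < C ∧ ∀ B : ℕ, 3 ≤ B → (Nf f B : ℝ) ≤ C * B / Real.log B ^ δ := by
  classical
  have hP1 : 1 ≤ P := hP.1
  have hct' : ∀ u : I → ℤ, ∃ δ C : ℝ, 0 < δ ∧ 0 < C ∧ ((∀ i, u i ∣ (P : ℤ)) → ∀ Y : ℕ, 3 ≤ Y →
      ((GT F u P (N u) Y).card : ℝ) ≤ C * Y / Real.log Y ^ δ) := by
    intro u
    by_cases hu : ∀ i, u i ∣ (P : ℤ)
    · obtain ⟨δ, C, h1, h2, h3⟩ := hct u hu
      exact ⟨δ, C, h1, h2, fun _ => h3⟩
    · exact ⟨1, 1, one_pos, one_pos, fun h => absurd h hu⟩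
  choose δ C hδ hC hb using hct'
  obtain ⟨U, hU⟩ : ∃ U : Finset (I → ℤ), U = Fintype.piFinset fun _ => NfLe3_dv P := ⟨_, rfl⟩
  have hUm : ∀ u, u ∈ U ↔ ∀ i, u i ∣ (P : ℤ) := by
    intro u
    rw [hU, Fintype.mem_piFinset]
    exact forall_congr' fun i => NfLe3_mem_dv hP1
  obtain ⟨δ₀, hδ₀⟩ : ∃ δ₀ : ℝ, δ₀ = (1 + ∑ u ∈ U, (δ u)⁻¹)⁻¹ := ⟨_, rfl⟩
  have hs0 : 0 ≤ ∑ u ∈ U, (δ u)⁻¹ := sum_nonneg fun u _ => (inv_pos.2 (hδ u)).le
  have hδ₀pos : 0 < δ₀ := by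
    rw [hδ₀]
    exact inv_pos.2 (by linarith)
  have hδle : ∀ u ∈ U, δ₀ ≤ δ u := by
    intro u hu
    have h1 : (δ u)⁻¹ ≤ ∑ u ∈ U, (δ u)⁻¹ :=
      single_le_sum (f := fun u => (δ u)⁻¹) (fun u _ => (inv_pos.2 (hδ u)).le) hu
    rw [hδ₀, inv_le_comm₀ (by linarith) (hδ u)]
    linarith
  have hC0 : 0 ≤ ∑ u ∈ U, C u := sum_nonneg fun u _ => (hC u).le
  have hδ₀1 : δ₀ ≤ 1 := by
    rw [hδ₀]
    exact inv_le_one_of_one_le₀ (by linarith)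
  obtain ⟨E, hE⟩ : ∃ E : Finset ℤ, E = hN.toFinset := ⟨_, rfl⟩
  refine ⟨δ₀, (NfLe3_dv P).card * ∑ u ∈ U, C u + 1 + E.card, hδ₀pos, by positivity, ?_⟩
  intro B hB
  have hlog : 1 ≤ Real.log B := by
    rw [Real.le_log_iff_exp_le (by positivity)]
    have h1 := Real.exp_one_lt_d9
    have h2 : (3 : ℝ) ≤ B := by exact_mod_cast hB
    linarith
  -- the finite cover
  obtain ⟨W, hW⟩ : ∃ W : Finset ℤ, W = U.biUnion fun u =>
      ((NfLe3_dv P) ×ˢ (GT F u P (N u) B)).image fun x => x.1 * ∏ i, (x.2 i : ℤ) := ⟨_, rfl⟩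
  have hcover : {d : ℤ | |d| < (B : ℤ) ∧ Squarefree d ∧
      ∃ x y : ℚ, y ≠ 0 ∧ (d : ℚ) * y ^ 2 = (f.map (Int.castRingHom ℚ)).eval x} ⊆ ((W ∪ E : Finset ℤ) : Set ℤ) := by
    rintro d ⟨hd1, hd2, x, y, hy, hxy⟩
    obtain ⟨X, Z, u, D, v, d₀, hp⟩ := pt S hP hd2 hy hxy
    rw [mem_coe, mem_union]
    by_cases hdE : d ∈ E
    · exact Or.inr hdE
    left
    have hNd : ∀ K : Finset I, K.Nonempty → N u K (sm K D) := by
      by_contra hcon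
      push Not at hcon
      apply hdE
      rw [hE, Set.Finite.mem_toFinset]
      exact ⟨X, Z, u, D, v, d₀, hp, hcon⟩
    rw [hW, mem_biUnion]
    refine ⟨u, (hUm u).2 hp.udvd, mem_image.2 ⟨(d₀, D), mem_product.2
      ⟨(NfLe3_mem_dv hP1).2 hp.d0dvd, ?_⟩, hp.dd.symm⟩⟩
    unfold GT
    rw [mem_filter, mem_Tup]
    refine ⟨⟨hp.sf, hp.copD, ?_⟩, hp.copP, hp.loc, hNd⟩
    have h1 : d₀ ≠ 0 := by
      rintro rfl
      have h2 := hp.d0dvd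
      rw [zero_dvd_iff] at h2
      omega
    have h2 : |d| = |d₀| * ((∏ i, D i : ℕ) : ℤ) := by
      rw [hp.dd, abs_mul, Nat.cast_prod]
      congr 1
      exact abs_of_nonneg (prod_nonneg fun i _ => Int.natCast_nonneg _)
    have h3 : 1 ≤ |d₀| := Int.one_le_abs h1
    have h4 : ((∏ i, D i : ℕ) : ℤ) ≤ |d₀| * ((∏ i, D i : ℕ) : ℤ) :=
      le_mul_of_one_le_left (Int.natCast_nonneg _) h3
    have h5 : ((∏ i, D i : ℕ) : ℤ) ≤ (B : ℤ) := by omega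
    exact_mod_cast h5
  have hN1 : Nf f B ≤ W.card + E.card := by
    unfold Nf
    refine le_trans ?_ (card_union_le W E)
    rw [← Set.ncard_coe_finset]
    exact Set.ncard_le_ncard hcover (Finset.finite_toSet _)
  have hN2 : W.card ≤ ∑ u ∈ U, (NfLe3_dv P).card * (GT F u P (N u) B).card := by
    rw [hW]
    refine card_biUnion_le.trans (sum_le_sum fun u _ => ?_)
    rw [← card_product]
    exact card_image_le
  have hN3 : (Nf f B : ℝ) ≤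
      ∑ u ∈ U, ((NfLe3_dv P).card : ℝ) * ((GT F u P (N u) B).card : ℝ) + E.card := by
    exact_mod_cast hN1.trans (Nat.add_le_add_right hN2 _)
  have hX : 0 ≤ (B : ℝ) / Real.log B ^ δ₀ := by positivity
  have hX1 : 1 ≤ (B : ℝ) / Real.log B ^ δ₀ := by
    rw [one_le_div (Real.rpow_pos_of_pos (by linarith) _)]
    have h1 : Real.log B ^ δ₀ ≤ Real.log B ^ (1 : ℝ) :=
      Real.rpow_le_rpow_of_exponent_le hlog hδ₀1
    rw [Real.rpow_one] at h1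
    exact h1.trans (Real.log_le_self (Nat.cast_nonneg _))
  have hE0 : (0 : ℝ) ≤ E.card := Nat.cast_nonneg _
  calc (Nf f B : ℝ) ≤
      ∑ u ∈ U, ((NfLe3_dv P).card : ℝ) * ((GT F u P (N u) B).card : ℝ) + E.card := hN3
    _ ≤ ∑ u ∈ U, ((NfLe3_dv P).card : ℝ) * (C u * ((B : ℝ) / Real.log B ^ δ₀)) + E.card := by
        gcongr with u hu
        refine (hb u ((hUm u).1 hu) B hB).trans ?_
        rw [mul_div_assoc]
        refine mul_le_mul_of_nonneg_left ?_ (hC u).le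
        exact div_le_div_of_nonneg_left (Nat.cast_nonneg _) (Real.rpow_pos_of_pos (by linarith) _)
          (Real.rpow_le_rpow_of_exponent_le hlog (hδle u hu))
    _ = ((NfLe3_dv P).card * ∑ u ∈ U, C u) * ((B : ℝ) / Real.log B ^ δ₀) + E.card := by
        rw [← mul_sum, ← sum_mul, mul_assoc]
    _ ≤ ((NfLe3_dv P).card * ∑ u ∈ U, C u + 1 + E.card) * ((B : ℝ) / Real.log B ^ δ₀) := by
        nlinarith
    _ = ((NfLe3_dv P).card * ∑ u ∈ U, C u + 1 + E.card) * B / Real.log B ^ δ₀ := by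
        rw [mul_div_assoc]

end Pool.Agent.QTW
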