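import Pool.Agent.QTX.Defs
import Pool.Agent.QTX.Fct3
import Pool.Agent.QTW.HomM

/-!
# QTX-Set3: the setup for a general polynomial

The family consists of the irreducible factors `g i` of `f` and, if the degree of `f` is odd, of the form `Z` (polynomial `1`, degree `1`).

PROOF. `fct3 f` gives `r, g, c`; `ε = f.natDegree % 2 ∈ {0, 1}`. `(g i).natDegree ≥ 1` (irreducible). `∑ n = ∑ (g i).natDegree + ε = f.natDegree + ε` is even (`natDegree_C_mul`, `natDegree_prod`). `Setup.prod`: `f = C c * ∏ (fam3 g ε).f i` (the extra factors are `1`), `hom_C_mul`, `hom_prod`.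
`Adm3`: `lin`: `F.n k = 1`: for `k = inl i` the polynomial `g i` is primitive of degree one, so `coeff 0`, `coeff 1` are coprime (a common divisor `d` gives `C d ∣ g i`; `Polynomial.IsPrimitive`, `Int.isCoprime_iff_gcd_eq_one`); for `k = inr _`: `1` and `0`.
`non`: `n = natDegree ≥ 2`. `cop`: `fct3` for two `inl`; `1` is coprime to everything; two different `inr` do not exist as `ε ≤ 1`. `lead`: leading coefficients of the `g i` are nonzero, one of two different indices is `inl`.
`Bad`: `bad_exists` from `cop` and `lead`. The number of odd `n`: that of `fct3` plus `ε`.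
-/

set_option autoImplicit false

namespace Pool.Agent.QTW

open Finset

/-- the family -/
noncomputable def fam3 {r : ℕ} (g : Fin r → Polynomial ℤ) (ε : ℕ) : Fam (Fin r ⊕ Fin ε) where
  f := Sum.elim g (fun _ => 1)
  n := Sum.elim (fun i => (g i).natDegree) (fun _ => 1)

private theorem fam3_sum {r : ℕ} (g : Fin r → Polynomial ℤ) (ε : ℕ) :
    ∑ i, (fam3 g ε).n i = ∑ i, (g i).natDegree + ε := by
  rw [Fintype.sum_sum_type]
  congr 1
  show ∑ _x : Fin ε, 1 = ε
  rw [Finset.sum_const, Finset.card_univ, Fintype.card_fin, smul_eq_mul, mul_one]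

private theorem fam3_prod {r : ℕ} (g : Fin r → Polynomial ℤ) (ε : ℕ) :
    ∏ i, (fam3 g ε).f i = ∏ i, g i := by
  rw [Fintype.prod_sum_type]
  show (∏ i, g i) * ∏ _x : Fin ε, (1 : Polynomial ℤ) = ∏ i, g i
  rw [Finset.prod_const_one, mul_one]

private theorem fam3_deg {r : ℕ} (g : Fin r → Polynomial ℤ) (ε : ℕ) (hg : ∀ i, 1 ≤ (g i).natDegree)
    (i : Fin r ⊕ Fin ε) : ((fam3 g ε).f i).natDegree ≤ (fam3 g ε).n i ∧ 1 ≤ (fam3 g ε).n i := by
  rcases i with k | o
  · exact ⟨le_rfl, hg k⟩
  · refine ⟨?_, le_rfl⟩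
    show (1 : Polynomial ℤ).natDegree ≤ 1
    rw [Polynomial.natDegree_one]
    exact Nat.zero_le 1

private theorem fam3_odd {r : ℕ} (g : Fin r → Polynomial ℤ) (ε : ℕ) :
    (oddF (fam3 g ε)).card = (univ.filter (fun i => Odd (g i).natDegree)).card + ε := by
  classical
  rw [oddF, Finset.card_filter, Fintype.sum_sum_type, Finset.card_filter]
  congr 1
  show ∑ _x : Fin ε, (if Odd 1 then 1 else 0) = ε
  rw [if_pos odd_one, Finset.sum_const, Finset.card_univ, Fintype.card_fin, smul_eq_mul, mul_one]

private theorem prim_cop {p : Polynomial ℤ} (hp : p.IsPrimitive) (h1 : p.natDegree = 1) :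
    IsCoprime (p.coeff 0) (p.coeff 1) := by
  rw [Int.isCoprime_iff_gcd_eq_one]
  have h2 : Polynomial.C ((Int.gcd (p.coeff 0) (p.coeff 1) : ℕ) : ℤ) ∣ p := by
    rw [Polynomial.C_dvd_iff_dvd_coeff]
    intro i
    rcases Nat.lt_or_ge i 2 with h | h
    · interval_cases i
      · exact Int.gcd_dvd_left _ _
      · exact Int.gcd_dvd_right _ _
    · have hz : p.coeff i = 0 := Polynomial.coeff_eq_zero_of_natDegree_lt (by omega)
      rw [hz]
      exact dvd_zero _
  have h3 := hp _ h2
  rw [Int.isUnit_iff_natAbs_eq, Int.natAbs_natCast] at h3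
  exact h3

theorem setup3 (f : Polynomial ℤ) (hsep : (f.map (Int.castRingHom ℚ)).Separable) :
    ∃ (r : ℕ) (g : Fin r → Polynomial ℤ) (c : ℤ),
      Setup f (fam3 g (f.natDegree % 2)) c ∧
      (∃ P : ℕ, Bad (fam3 g (f.natDegree % 2)) c P) ∧
      Adm3 (fam3 g (f.natDegree % 2)) ∧
      (oddF (fam3 g (f.natDegree % 2))).card =
        Multiset.card ((UniqueFactorizationMonoid.normalizedFactors
          (f.map (Int.castRingHom ℚ))).filter (fun q => Odd q.natDegree)) + f.natDegree % 2 ∧
      ∑ i, (fam3 g (f.natDegree % 2)).n i = f.natDegree + f.natDegree % 2 ∧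
      (∀ q ∈ UniqueFactorizationMonoid.normalizedFactors (f.map (Int.castRingHom ℚ)),
        ∃ i, q.natDegree = (g i).natDegree) := by
  classical
  obtain ⟨r, g, c, hc, hfac, hprim, hirr, hcop0, hcard, hdeg⟩ := fct3 f hsep
  have hg1 : ∀ i, 1 ≤ (g i).natDegree := by
    intro i
    have h1 := Polynomial.natDegree_pos_iff_degree_pos.mpr (Polynomial.degree_pos_of_irreducible (hirr i))
    rw [Polynomial.natDegree_map_eq_of_injective Int.cast_injective] at h1
    exact h1
  have hg0 : ∀ i, g i ≠ 0 := by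
    intro i h
    have h2 := hg1 i
    rw [h, Polynomial.natDegree_zero] at h2
    omega
  have hfd : f.natDegree = ∑ i, (g i).natDegree := by
    have h1 := congrArg Polynomial.natDegree hfac
    rw [Polynomial.natDegree_C_mul hc, Polynomial.natDegree_prod _ _ fun i _ => hg0 i] at h1
    exact h1
  refine ⟨r, g, c, ?_⟩
  have hε : f.natDegree % 2 < 2 := Nat.mod_lt _ (by norm_num)
  have hsum : ∑ i, (fam3 g (f.natDegree % 2)).n i = f.natDegree + f.natDegree % 2 := by
    rw [fam3_sum, ← hfd]
  have heven : Even (∑ i, (fam3 g (f.natDegree % 2)).n i) := by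
    rw [hsum, Nat.even_iff]
    omega
  have hodd : (oddF (fam3 g (f.natDegree % 2))).card =
        Multiset.card ((UniqueFactorizationMonoid.normalizedFactors
          (f.map (Int.castRingHom ℚ))).filter (fun q => Odd q.natDegree)) + f.natDegree % 2 := by
    rw [fam3_odd, ← hcard]
  have hle : f.natDegree ≤ ∑ i, (fam3 g (f.natDegree % 2)).n i := by
    rw [hsum]
    exact Nat.le_add_right _ _
  generalize f.natDegree % 2 = ε at *
  have hcop : ∀ i j, i ≠ j → IsCoprime (((fam3 g ε).f i).map (Int.castRingHom ℚ))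
      (((fam3 g ε).f j).map (Int.castRingHom ℚ)) := by
    intro i j hij
    rcases i with i | i
    · rcases j with j | j
      · exact hcop0 i j fun h => hij (by rw [h])
      · show IsCoprime ((g i).map (Int.castRingHom ℚ)) ((1 : Polynomial ℤ).map (Int.castRingHom ℚ))
        rw [Polynomial.map_one]
        exact isCoprime_one_right
    · show IsCoprime ((1 : Polynomial ℤ).map (Int.castRingHom ℚ)) _
      rw [Polynomial.map_one]
      exact isCoprime_one_left
  have hlc : ∀ i, (g i).coeff (g i).natDegree ≠ 0 := fun i h =>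
    hg0 i (Polynomial.leadingCoeff_eq_zero.mp h)
  have hlead : ∀ i j, i ≠ j → ((fam3 g ε).f i).coeff ((fam3 g ε).n i) ≠ 0 ∨
      ((fam3 g ε).f j).coeff ((fam3 g ε).n j) ≠ 0 := by
    intro i j hij
    rcases i with i | i
    · exact Or.inl (hlc i)
    · rcases j with j | j
      · exact Or.inr (hlc j)
      · exfalso
        apply hij
        have h1 := i.2
        have h2 := j.2
        have h3 : i = j := Fin.ext (by omega)
        rw [h3]
  refine ⟨⟨hc, fam3_deg g ε hg1, heven, hle, fun X Z => ?_⟩, bad_exists _ hc fun i j hij =>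
    ⟨hcop i j hij, hlead i j hij⟩, ⟨fun k => (fam3_deg g ε hg1 k).1, ?_, ?_, hcop, hlead⟩, hodd, hsum,
    hdeg⟩
  · rw [← hom_prod _ _ _ fun i _ => (fam3_deg g ε hg1 i).1, ← hom_C_mul, fam3_prod, ← hfac]
  · intro k hk
    rcases k with k | k
    · exact prim_cop (hprim k) hk
    · show IsCoprime ((1 : Polynomial ℤ).coeff 0) _
      rw [Polynomial.coeff_one_zero]
      exact isCoprime_one_left
  · intro k hk
    rcases k with k | k
    · refine ⟨rfl, ?_, hirr k⟩
      have h1 := hg1 k
      have h2 : (g k).natDegree ≠ 1 := hk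
      show 2 ≤ (g k).natDegree
      omega
    · exact absurd rfl hk

end Pool.Agent.QTW
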