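import Pool.Agent.QTX.AvC
import Pool.Agent.QTX.NfLe3
import Pool.Agent.QTX.Exc
import Pool.Agent.QTX.Set3
import Pool.Agent.QTW.CT

/-!
# QTX: main theorem
-/

set_option autoImplicit false

namespace Pool.Agent.QTW

open Finset

theorem main3 (hF : Faltings) (f : Polynomial ℤ) (hsep : (f.map (Int.castRingHom ℚ)).Separable)
    (hdeg : 7 ≤ f.natDegree)
    (hodd : Multiset.card ((UniqueFactorizationMonoid.normalizedFactors
      (f.map (Int.castRingHom ℚ))).filter (fun q => Odd q.natDegree)) + f.natDegree % 2 ≠ 2)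
    (hex : f.natDegree ≤ 8 → ¬ (Multiset.card ((UniqueFactorizationMonoid.normalizedFactors
      (f.map (Int.castRingHom ℚ))).filter (fun q => Odd q.natDegree)) + f.natDegree % 2 = 4 ∧
      ∀ q ∈ UniqueFactorizationMonoid.normalizedFactors (f.map (Int.castRingHom ℚ)),
        Odd q.natDegree → q.natDegree = 1)) :
    ∃ δ C : ℝ, 0 < δ ∧ 0 < C ∧ ∀ B : ℕ, 3 ≤ B → (Nf f B : ℝ) ≤ C * B / Real.log B ^ δ := by
  obtain ⟨r, g, c, S, ⟨P, hP⟩, hA, hc, hs, hq⟩ := setup3 f hsep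
  have hP0 : P ≠ 0 := by have := hP.1; omega
  have hN : Num3 (fam3 g (f.natDegree % 2)) := by
    refine ⟨S.even, by rw [hc]; exact hodd, by rw [hs]; omega, fun h4 hall => ?_⟩
    rw [hs]
    by_contra hlt
    refine hex (by omega) ⟨by rw [← hc]; exact h4, fun q hq' hqo => ?_⟩
    obtain ⟨i, hi⟩ := hq q hq'
    rw [hi]
    rw [hi] at hqo
    exact hall (Sum.inl i) (mem_oddF.2 hqo)
  refine nf_le3 S hP (N3 (fam3 g (f.natDegree % 2))) (exc_fin hF hA hN hP0) (fun u _ => ?_)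
  exact ct _ u P _ (av_c hP hA S.even hN.two u)

end Pool.Agent.QTW
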