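import Pool.Agent.QTX.NfLe4
import Pool.Agent.QTX.Set4
import Pool.Agent.QTX.Exc4
import Pool.Agent.QTX.Cur4
import Pool.Agent.QTX.AvC
import Pool.Agent.QTW.CT

/-!
# QTX: unconditional main theorems
-/

set_option autoImplicit false

namespace Pool.Agent.QTW

open Finset

theorem main4 (f : Polynomial ℤ) (hsep : (f.map (Int.castRingHom ℚ)).Separable)
    (hodd : Multiset.card ((UniqueFactorizationMonoid.normalizedFactors
      (f.map (Int.castRingHom ℚ))).filter (fun q => Odd q.natDegree)) + f.natDegree % 2 ≠ 2) :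
    ∃ δ C : ℝ, 0 < δ ∧ 0 < C ∧ ∀ B : ℕ, 3 ≤ B →
      (NfE f (Excep f) B : ℝ) ≤ C * B / Real.log B ^ δ := by
  obtain ⟨r, g, c, hD, S, ⟨P, hP⟩, hA, hc, hs⟩ := setup4 f hsep
  refine nf_le4 S hP (N3 (fam3 g (f.natDegree % 2))) (Excep f)
    (fun d x u D v d₀ hp hx K hK => ?_) (fun u _ => ?_)
  · by_contra hE
    exact hx (exc4 hD hA hp K hK hE)
  · exact ct _ u P _ (av_c hP hA S.even (by rw [hc]; exact hodd) u)

theorem curves4 (f : Polynomial ℤ) (hsep : (f.map (Int.castRingHom ℚ)).Separable)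
    (hdeg : 7 ≤ f.natDegree)
    (hodd : Multiset.card ((UniqueFactorizationMonoid.normalizedFactors
      (f.map (Int.castRingHom ℚ))).filter (fun q => Odd q.natDegree)) + f.natDegree % 2 ≠ 2)
    (hex : f.natDegree ≤ 8 → ¬ (Multiset.card ((UniqueFactorizationMonoid.normalizedFactors
      (f.map (Int.castRingHom ℚ))).filter (fun q => Odd q.natDegree)) + f.natDegree % 2 = 4 ∧
      ∀ q ∈ UniqueFactorizationMonoid.normalizedFactors (f.map (Int.castRingHom ℚ)),
        Odd q.natDegree → q.natDegree = 1)) :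
    ∃ S : Finset (Polynomial ℚ), (∀ h ∈ S, h.Separable ∧ 5 ≤ h.natDegree) ∧
      ∀ x : ℚ, Excep f x → ∃ h ∈ S, IsSquare (h.eval x) := by
  obtain ⟨r, g, c, hD, S, ⟨P, hP⟩, hA, hc, hs⟩ := setup4 f hsep
  refine cur4 hD ⟨S.even, by rw [hc]; exact hodd, by rw [hs]; omega, fun h4 hall => ?_⟩
  rw [hs]
  by_contra hlt
  refine hex (by omega) ⟨by rw [← hc]; exact h4, fun q hq' hqo => ?_⟩
  obtain ⟨i, u, _, _, hi⟩ := fd_factor hD hq'
  rw [hi]
  rw [hi] at hqo
  exact hall (Sum.inl i) (mem_oddF.2 hqo)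

end Pool.Agent.QTW
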