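import Pool.Agent.QTX.Defs
import Pool.Agent.QTW.ESet

/-!
# QTX-SgLin3: the local condition at the primes dividing the value of a linear form

The root of the `k`-th form modulo `p` is the point `(-b : a)`, so the values of the other forms at the root are the numbers
`bet F k l`, up to powers of a unit `σ` (`rep`). `card_sg_lin3` is `card_sg_le` and `card_es_linear`.
-/

set_option autoImplicit false

namespace Pool.Agent.QTW

open Finset

variable {I : Type} [Fintype I] [DecidableEq I]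

omit [Fintype I] [DecidableEq I] in
private theorem sl3_not {F : Fam I} (hA : Adm3 F) {k : I} (h1 : F.n k = 1) {p : ℕ} (hp : p.Prime) :
    ¬ ((p : ℤ) ∣ (F.f k).coeff 0 ∧ (p : ℤ) ∣ (F.f k).coeff 1) := by
  rintro ⟨ha, hb⟩
  have h4 : (p : ℤ) ∣ 1 := by
    obtain ⟨x, y, hxy⟩ := hA.lin k h1
    rw [← hxy]
    exact dvd_add (ha.mul_left x) (hb.mul_left y)
  have h5 : p ∣ 1 := by exact_mod_cast h4
  exact hp.one_lt.ne' (Nat.dvd_one.1 h5)

/-- a linear form has one root only -/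
private theorem sl3_key {F : Fam I} (hA : Adm3 F) {k : I} (h1 : F.n k = 1) {p : ℕ} (hp : p.Prime)
    (r r' : Option (ZMod p)) (hr : ev p (F.f k) (F.n k) r = 0) (hr' : ev p (F.f k) (F.n k) r' = 0) :
    r = r' := by
  have : Fact p.Prime := ⟨hp⟩
  have h2 : (F.f k).natDegree ≤ 1 := h1 ▸ hA.deg k
  have hpr := sl3_not hA h1 hp
  have hev : ∀ x : ZMod p, ev p (F.f k) (F.n k) (some x) =
      (((F.f k).coeff 1 : ℤ) : ZMod p) * x + (((F.f k).coeff 0 : ℤ) : ZMod p) := by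
    intro x
    have h4 := Polynomial.eq_X_add_C_of_natDegree_le_one h2
    rw [ev]
    conv_lhs => rw [h4]
    simp
  have hnone : ev p (F.f k) (F.n k) none = (((F.f k).coeff 1 : ℤ) : ZMod p) := by
    rw [ev, h1]
  rw [← ZMod.intCast_zmod_eq_zero_iff_dvd, ← ZMod.intCast_zmod_eq_zero_iff_dvd] at hpr
  have h5 : ∀ x : ZMod p, ev p (F.f k) (F.n k) (some x) = 0 → ev p (F.f k) (F.n k) none = 0 → False := by
    intro x hx hn
    rw [hev] at hx
    rw [hnone] at hn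
    rw [hn, zero_mul, zero_add] at hx
    exact hpr ⟨hx, hn⟩
  rcases r with _ | x <;> rcases r' with _ | x'
  · rfl
  · exact (h5 x' hr' hr).elim
  · exact (h5 x hr hr').elim
  · have h6 : (((F.f k).coeff 1 : ℤ) : ZMod p) ≠ 0 := by
      intro h
      exact h5 x hr (by rw [hnone, h])
    rw [hev] at hr hr'
    have h7 : (((F.f k).coeff 1 : ℤ) : ZMod p) * x = (((F.f k).coeff 1 : ℤ) : ZMod p) * x' :=
      add_right_cancel (hr.trans hr'.symm)
    rw [mul_left_cancel₀ h6 h7]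

private theorem sl3_pow {p : ℕ} (hp : p.Prime) (a : ZMod p) (n : ℕ) : qc p (a ^ n) = qc p a ^ n := by
  induction n with
  | zero =>
    have h := qc_int hp 1
    rw [Int.cast_one] at h
    rw [pow_zero, pow_zero, h, jacobiSym.one_left]
  | succ n ih => rw [pow_succ, pow_succ, qc_mul hp, ih]

private theorem sl3_sq {a : ℤ} (h : a = 1 ∨ a = -1) : a * a = 1 := by
  rcases h with rfl | rfl <;> norm_num

private theorem sl3_data {F : Fam I} {c : ℤ} {P : ℕ} (hP : Bad F c P) (hA : Adm3 F) (u : I → ℤ)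
    (K : Finset I) (s : I → ℕ) (k : I) (hk : k ∈ K) (h1 : F.n k = 1) {p : ℕ} (hp : p.Prime)
    (hne : (sg F u P K s ⟨k, hk⟩ p).Nonempty) :
    ∃ ρ : ℤ, (ρ = 1 ∨ ρ = -1) ∧ ∀ l, l ∉ K →
      jacobiSym (u l * (s l : ℤ) * bet F k l) p = ρ ^ (F.n l) := by
  obtain ⟨v, hv⟩ := hne
  obtain ⟨-, -, hpP, r, hr, τ, hτ, -, h2⟩ := mem_sg.1 hv
  have hcop : IsCoprime (-(F.f k).coeff 0) ((F.f k).coeff 1) := (hA.lin k h1).neg_left
  obtain ⟨r', σ, hσ, hrep⟩ := rep hp hcop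
  have hkk : hom (F.f k) (F.n k) (-(F.f k).coeff 0) ((F.f k).coeff 1) = 0 := by
    rw [h1, hom, Finset.sum_range_succ, Finset.sum_range_one]
    simp
    ring
  have hr' : ev p (F.f k) (F.n k) r' = 0 := by
    have : Fact p.Prime := ⟨hp⟩
    have h3 := hrep (F.f k) (F.n k) (hA.deg k)
    rw [hkk, Int.cast_zero] at h3
    rcases mul_eq_zero.1 h3.symm with h4 | h4
    · exact h4
    · exact absurd h4 (pow_ne_zero _ hσ)
  have hrr : r = r' := sl3_key hA h1 hp r r' hr hr'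
  have hqσ := qc_sign hp hσ
  refine ⟨τ * qc p σ, ?_, ?_⟩
  · rcases hτ with rfl | rfl <;> rcases hqσ with h | h <;> rw [h] <;> norm_num
  intro l hl
  have hlk : l ≠ k := fun h => hl (h ▸ hk)
  have hev : ev p (F.f l) (F.n l) r ≠ 0 := fun h => (hP.2 p hp hpP).2.2 l k hlk r ⟨h, hr⟩
  have h3 : jacobiSym (bet F k l) p = qc p (ev p (F.f l) (F.n l) r) * qc p σ ^ (F.n l) := by
    rw [← qc_int hp, bet, hrep (F.f l) (F.n l) (hA.deg l), qc_mul hp, sl3_pow hp, hrr]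
  rw [jacobiSym.mul_left, h2 l hl, h3, mul_pow]
  have h4 := sl3_sq (qc_sign hp hev)
  linear_combination (τ ^ (F.n l) * qc p σ ^ (F.n l)) * h4

theorem sg_lin3 {F : Fam I} {c : ℤ} {P : ℕ} (hP : Bad F c P) (hA : Adm3 F) (u : I → ℤ)
    (K : Finset I) (s : I → ℕ) (k : I) (hk : k ∈ K) (h1 : F.n k = 1) {p : ℕ} (hp : p.Prime)
    (hne : (sg F u P K s ⟨k, hk⟩ p).Nonempty) :
    (∀ l, l ∉ K → Even (F.n l) → jacobiSym (u l * (s l : ℤ) * bet F k l) p = 1) ∧
    (∀ l m, l ∉ K → m ∉ K → Odd (F.n l) → Odd (F.n m) →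
      jacobiSym ((u l * (s l : ℤ) * bet F k l) * (u m * (s m : ℤ) * bet F k m)) p = 1) := by
  obtain ⟨ρ, hρ, h⟩ := sl3_data hP hA u K s k hk h1 hp hne
  have hodd : ∀ {n : ℕ}, Odd n → ρ ^ n = ρ := by
    intro n hn
    rcases hρ with rfl | rfl
    · exact one_pow n
    · exact hn.neg_one_pow
  refine ⟨fun l hl he => ?_, fun l m hl hm hol hom => ?_⟩
  · rw [h l hl]
    rcases hρ with rfl | rfl
    · exact one_pow _
    · exact he.neg_one_pow
  · rw [jacobiSym.mul_left, h l hl, h m hm, hodd hol, hodd hom]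
    exact sl3_sq hρ

theorem card_sg_lin3 {F : Fam I} {c : ℤ} {P : ℕ} (hP : Bad F c P) (hA : Adm3 F) (u : I → ℤ)
    (K : Finset I) (s : I → ℕ) (k : I) (hk : k ∈ K) (h1 : F.n k = 1) {p : ℕ} (hp : p.Prime) :
    ((sg F u P K s ⟨k, hk⟩ p).card : ℝ) ≤ tt F K := by
  have h2 : (F.f k).natDegree ≤ 1 := h1 ▸ hA.deg k
  have h3 : F.f k ≠ 0 := by
    intro h0
    refine sl3_not hA h1 hp ?_
    rw [h0]
    simp
  have hes := card_es_linear h1 h2 h3 hp (sl3_not hA h1 hp)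
  obtain ⟨h4, h5⟩ := card_sg_le hP u K s ⟨k, hk⟩ hp
  have h6 : (sg F u P K s ⟨k, hk⟩ p).card ≤ 2 := by
    have : (sg F u P K s ⟨k, hk⟩ p).card ≤ 2 * (es F k p).card := h4
    omega
  unfold tt
  split_ifs with hc
  · exact_mod_cast h6
  · have h7 : (∀ l, Even (F.n l)) ∨ ∃ j, j ∉ K ∧ Odd (F.n j) := by
      rw [not_and_or] at hc
      rcases hc with hc | hc
      · exact absurd ⟨k, mem_oddF.2 (h1 ▸ odd_one)⟩ hc
      · rw [not_subset] at hc
        obtain ⟨j, hj, hjK⟩ := hc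
        exact Or.inr ⟨j, hjK, mem_oddF.1 hj⟩
    have h8 : (sg F u P K s ⟨k, hk⟩ p).card ≤ 1 := le_trans (h5 h7) hes
    exact_mod_cast h8

end Pool.Agent.QTW
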